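import Pool.Agent.Helper7.Proj.Defs

namespace Pool.Agent.Helper7.Proj

open MeasureTheory Set

/-- `Z₀ = ∫ exp(-x^q)` -/
noncomputable def Zo (q : ℝ) : ℝ := ∫ x in Ioi (0 : ℝ), Real.exp (-x ^ q)
/-- `Z₁ = ∫ x^(q-2) exp(-x^q)` -/
noncomputable def Zd (q : ℝ) : ℝ := ∫ x in Ioi (0 : ℝ), x ^ (q - 2) * Real.exp (-x ^ q)
noncomputable def kap (q : ℝ) : ℝ := Zo q / (q * Zd q)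
noncomputable def beta (q x : ℝ) : ℝ :=
  Real.exp (-x ^ q) * ((Zo q * (q - 2) / (q * Zd q ^ 2)) * x ^ (q - 3) -
    (1 / Zo q) * (x * (1 - (Zo q / Zd q) * x ^ (q - 2)) ^ 2))
noncomputable def Bf (q t : ℝ) : ℝ := ∫ x in Ioi (0 : ℝ), Real.sin (t * x) * beta q x
noncomputable def Bf' (q t : ℝ) : ℝ := ∫ x in Ioi (0 : ℝ), Real.cos (t * x) * (x * beta q x)

/-- Packet B. -/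
def PktB : Prop := ∀ (C₀ c₀ δ : ℝ) (Φ G b b' : ℝ → ℝ), 1 ≤ C₀ → 0 < δ → δ ≤ 1 →
  Sys C₀ c₀ δ Φ G b b' →
  (∀ t, 0 ≤ t → |Φ t| ≤ 1) → (∀ t, 0 < t → |Φ t| ≤ 2 / t) →
  (∀ t, 0 ≤ t → 1 - Φ t ≤ (1 + 2 * C₀) * t ^ 2) →
  (∀ t, 0 ≤ t → 0 ≤ G t) → (∀ t, 0 ≤ t → G t ≤ 2 * C₀) → (∀ t, 0 < t → G t ≤ 2 * C₀ / t) →
  (∀ (a b : ℝ) (m : ℕ) (s : Finset (Fin m)) (x : Fin m → ℝ), 0 < a → a < b →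
    (∀ j ∈ s, 0 ≤ x j ∧ x j ≤ 2 * b) → a + b + ∑ j ∈ s, x j = 1 →
    0 < ∫ t in Ioi (0 : ℝ), Wf Φ G a b t * ∏ j ∈ s, Φ (√(x j) * t)) →
  ∀ (n : ℕ), 0 < n → ∀ x : Fin n → ℝ, (∀ i, 0 ≤ x i) → ∑ i, x i = 1 →
    F Φ (fun _ : Fin n => (1 : ℝ) / n) ≤ F Φ x ∧
    (F Φ x = F Φ (fun _ : Fin n => (1 : ℝ) / n) → ∀ i, x i = 1 / n)

/-- Packet C1. -/
def PktC1 : Prop := ∀ q : ℝ, 2 < q → q ≤ 3 →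
  (∀ t, HasDerivAt (phi q) (-(kap q) * t * psi q t) t) ∧
  (∀ t, HasDerivAt (psi q) (Bf q t - 2 * kap q * t * psi q t + kap q * t * phi q t) t) ∧
  (∀ t, HasDerivAt (Bf q) (Bf' q t) t)

/-- Packet C2. -/
def PktC2 : Prop := ∃ C c δ₁ : ℝ, 0 < C ∧ 0 < c ∧ 0 < δ₁ ∧ δ₁ ≤ 1 ∧
  ∀ δ, 0 < δ → δ ≤ δ₁ →
    1 / 4 ≤ kap (2 + δ) ∧ kap (2 + δ) ≤ 1 ∧
    (∀ t, 0 < t → 0 < Bf (2 + δ) t ∧ Bf (2 + δ) t ≤ C * δ) ∧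
    (∀ t, 0 ≤ t → t ≤ 2 → c * δ * t ≤ Bf (2 + δ) t) ∧
    (∀ t, 0 < t → |Bf' (2 + δ) t| ≤ C * δ / t)

/-- Packet D. -/
def PktD : Prop := ∀ p : ℝ, 1 < p → p < 2 → ∀ n : ℕ, ∃ C : ℝ, 0 < C ∧ ∀ u : Fin n → ℝ,
  J p u = C * ∫ t in Ioi (0 : ℝ), (1 - ∏ i, phi (p / (p - 1)) (u i * t)) / t ^ 2

/-- Packet E. -/
def PktE : Prop := ∀ p : ℝ, 1 < p → p < 2 → ∀ n : ℕ, 0 < n → ∃ C : ℝ, 0 < C ∧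
  ∀ u : EuclideanSpace ℝ (Fin n), ‖u‖ = 1 → projVol p n u = C * J p (fun i => u i)

/-- Packet A (helper7): the key inequality. -/
def PktA : Prop := ∀ C₀ c₀ : ℝ, 1 ≤ C₀ → 0 < c₀ → ∃ δ₀ : ℝ, 0 < δ₀ ∧ δ₀ ≤ 1 ∧
  ∀ (δ : ℝ) (Φ G b b' : ℝ → ℝ), 0 < δ → δ ≤ δ₀ → Sys C₀ c₀ δ Φ G b b' →
  ∀ (a b : ℝ) (m : ℕ) (s : Finset (Fin m)) (x : Fin m → ℝ), 0 < a → a < b →
    (∀ j ∈ s, 0 ≤ x j ∧ x j ≤ 2 * b) → a + b + ∑ j ∈ s, x j = 1 →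
    0 < ∫ t in Ioi (0 : ℝ), Wf Φ G a b t * ∏ j ∈ s, Φ (√(x j) * t)

end Pool.Agent.Helper7.Proj
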