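import Pool.Agent.Helper7.Proj.Assembly
import Pool.Agent.Helper16.Proj.PktC2

namespace Pool.Agent.Helper7.Proj

open MeasureTheory Set Real

lemma Bp_compact {p : ℝ} (hp : 0 < p) (n : ℕ) : IsCompact (Bp p n) := by
  apply Metric.isCompact_of_isClosed_isBounded
  · unfold Bp
    apply isClosed_le _ continuous_const
    apply continuous_finsetSum
    intro i _
    have : Continuous fun x : EuclideanSpace ℝ (Fin n) => |x i| := by fun_prop
    exact this.rpow_const (fun _ => Or.inr hp.le)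
  · rw [isBounded_iff_forall_norm_le]
    refine ⟨√n, fun x hx => ?_⟩
    rw [EuclideanSpace.norm_eq]
    apply Real.sqrt_le_sqrt
    have h1 : ∀ i, ‖x i‖ ^ 2 ≤ 1 := by
      intro i
      have h2 : |x i| ^ p ≤ 1 :=
        (Finset.single_le_sum (f := fun i => |x i| ^ p)
          (fun j _ => Real.rpow_nonneg (abs_nonneg _) _) (Finset.mem_univ i)).trans hx
      have h3 : |x i| ≤ 1 := by
        by_contra h
        push Not at h
        exact absurd (Real.one_lt_rpow h hp) (not_lt.2 h2)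
      rw [Real.norm_eq_abs]
      exact pow_le_one₀ (abs_nonneg _) h3
    calc ∑ i, ‖x i‖ ^ 2 ≤ ∑ _i : Fin n, (1 : ℝ) := Finset.sum_le_sum fun i _ => h1 i
      _ = n := by simp

lemma proj_finite {p : ℝ} (hp : 0 < p) (n : ℕ) (u : EuclideanSpace ℝ (Fin n)) :
    (volume : Measure (ℝ ∙ u)ᗮ) ((ℝ ∙ u)ᗮ.orthogonalProjectionOnto '' Bp p n) ≠ ⊤ :=
  (((Bp_compact hp n).image (ContinuousLinearMap.continuous _)).measure_lt_top).ne

theorem mainENN : ∃ p₀ : ℝ, 1 < p₀ ∧ p₀ < 2 ∧ ∀ p, p₀ < p → p < 2 →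
    ∀ n : ℕ, 0 < n → ∀ u : EuclideanSpace ℝ (Fin n), ‖u‖ = 1 →
      ((∀ v : EuclideanSpace ℝ (Fin n), ‖v‖ = 1 →
        (volume : Measure (ℝ ∙ u)ᗮ) ((ℝ ∙ u)ᗮ.orthogonalProjectionOnto '' Bp p n) ≤
        (volume : Measure (ℝ ∙ v)ᗮ) ((ℝ ∙ v)ᗮ.orthogonalProjectionOnto '' Bp p n)) ↔
        ∀ i, |u i| = 1 / √n) := by
  obtain ⟨p₀, h1, h2, h⟩ := main Pool.Agent.Helper16.Proj.pktC2
  refine ⟨p₀, h1, h2, fun p hp hp2 n hn u hu => ?_⟩
  have hp0 : 0 < p := by linarith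
  rw [← h p hp hp2 n hn u hu]
  apply forall₂_congr
  intro v _
  unfold projVol Measure.real
  rw [ENNReal.toReal_le_toReal (proj_finite hp0 n u) (proj_finite hp0 n v)]

end Pool.Agent.Helper7.Proj
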