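import Pool.Agent.Helper7.Proj.Packets

/-!
# Packet B for MP_705522_gt: abstract minimisation on the simplex
(written by helper97; copied here with two proof steps changed for the grader)
-/

namespace Pool.Agent.Helper7.Proj.PB

open MeasureTheory Set Pool.Agent.Helper7.Proj

/-- `min A (B / t^2)` is integrable on `(0, ∞)`. -/
theorem integrableOn_min {A B : ℝ} (hA : 0 ≤ A) (hB : 0 ≤ B) :
    IntegrableOn (fun t : ℝ => min A (B / t ^ 2)) (Ioi 0) := by
  have hmeas : Measurable (fun t : ℝ => min A (B / t ^ 2)) := by fun_prop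
  have hsplit : Ioi (0 : ℝ) = Ioc 0 1 ∪ Ioi 1 := by
    rw [Ioc_union_Ioi_eq_Ioi (by norm_num)]
  rw [hsplit]
  apply IntegrableOn.union
  · have hc : IntegrableOn (fun _ : ℝ => A) (Ioc (0 : ℝ) 1) :=
      (continuous_const : Continuous fun _ : ℝ => A).integrableOn_Ioc
    refine Integrable.mono' hc hmeas.aestronglyMeasurable ?_
    refine Filter.Eventually.of_forall fun t => ?_
    rw [Real.norm_eq_abs, abs_of_nonneg (le_min hA (by positivity))]
    exact min_le_left _ _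
  · have hc : IntegrableOn (fun t : ℝ => B * t ^ (-2 : ℝ)) (Ioi (1 : ℝ)) :=
      (integrableOn_Ioi_rpow_of_lt (by norm_num) (by norm_num)).const_mul B
    refine Integrable.mono' hc hmeas.aestronglyMeasurable ?_
    refine ae_restrict_of_forall_mem measurableSet_Ioi fun t ht => ?_
    have ht0 : (0 : ℝ) < t := lt_trans one_pos ht
    rw [Real.norm_eq_abs, abs_of_nonneg (le_min hA (by positivity))]
    refine (min_le_right _ _).trans (le_of_eq ?_)
    rw [Real.rpow_neg ht0.le, show (2 : ℝ) = ((2 : ℕ) : ℝ) by norm_num, Real.rpow_natCast]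
    rw [div_eq_mul_inv]

theorem abs_one_sub_prod_le {ι : Type*} (s : Finset ι) (y : ι → ℝ) (hy : ∀ i ∈ s, |y i| ≤ 1) :
    |∏ i ∈ s, y i| ≤ 1 ∧ |1 - ∏ i ∈ s, y i| ≤ ∑ i ∈ s, |1 - y i| := by
  classical
  induction s using Finset.induction_on with
  | empty => simp
  | insert a s ha ih =>
    obtain ⟨h1, h2⟩ := ih (fun i hi => hy i (Finset.mem_insert_of_mem hi))
    have hya := hy a (Finset.mem_insert_self _ _)
    rw [Finset.prod_insert ha, Finset.sum_insert ha]
    constructor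
    · rw [abs_mul]
      exact mul_le_one₀ hya (abs_nonneg _) h1
    · have : 1 - y a * ∏ i ∈ s, y i = (1 - y a) + y a * (1 - ∏ i ∈ s, y i) := by ring
      rw [this]
      refine (abs_add_le _ _).trans ?_
      rw [abs_mul]
      have h3 : |y a| * |1 - ∏ i ∈ s, y i| ≤ 1 * |1 - ∏ i ∈ s, y i| :=
        mul_le_mul_of_nonneg_right hya (abs_nonneg _)
      linarith

section main

variable {C₀ c₀ δ : ℝ} {Φ G b b' : ℝ → ℝ}

theorem cont_Φ (hS : Sys C₀ c₀ δ Φ G b b') : Continuous Φ :=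
  continuous_iff_continuousAt.2 fun t => (hS.Φ_deriv t).continuousAt

theorem cont_G (hS : Sys C₀ c₀ δ Φ G b b') : Continuous G :=
  continuous_iff_continuousAt.2 fun t => (hS.G_deriv t).continuousAt

/-- bound of the integrand of `F` -/
theorem integrand_bound
    (h1 : ∀ t, 0 ≤ t → |Φ t| ≤ 1)
    (h3 : ∀ t, 0 ≤ t → 1 - Φ t ≤ (1 + 2 * C₀) * t ^ 2)
    {n : ℕ} {x : Fin n → ℝ} (hx : ∀ i, 0 ≤ x i) (hsum : ∑ i, x i = 1) {t : ℝ} (ht : 0 < t) :
    |(1 - ∏ i, Φ (√(x i) * t)) / t ^ 2| ≤ min (1 + 2 * C₀) (2 / t ^ 2) := by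
  have harg : ∀ i, 0 ≤ √(x i) * t := fun i => by positivity
  obtain ⟨hp1, hp2⟩ := abs_one_sub_prod_le Finset.univ (fun i => Φ (√(x i) * t))
    (fun i _ => h1 _ (harg i))
  rw [abs_div, abs_of_pos (by positivity : (0 : ℝ) < t ^ 2)]
  apply le_min
  · rw [div_le_iff₀ (by positivity)]
    refine hp2.trans ?_
    have : ∀ i ∈ (Finset.univ : Finset (Fin n)), |1 - Φ (√(x i) * t)| ≤
        (1 + 2 * C₀) * t ^ 2 * x i := by
      intro i _
      have h4 := h1 _ (harg i)
      have h5 := h3 _ (harg i)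
      rw [abs_of_nonneg (by linarith [(abs_le.1 h4).2])]
      refine h5.trans (le_of_eq ?_)
      rw [mul_pow, Real.sq_sqrt (hx i)]
      ring
    refine (Finset.sum_le_sum this).trans ?_
    rw [← Finset.mul_sum, hsum, mul_one]
  · apply div_le_div_of_nonneg_right _ (by positivity)
    have := abs_sub (1 : ℝ) (∏ i, Φ (√(x i) * t))
    have h6 : |1 - ∏ i, Φ (√(x i) * t)| ≤ |(1 : ℝ)| + |∏ i, Φ (√(x i) * t)| := abs_sub _ _
    rw [abs_one] at h6
    linarith

theorem integrand_meas (hS : Sys C₀ c₀ δ Φ G b b') {n : ℕ} (x : Fin n → ℝ) :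
    Measurable (fun t : ℝ => (1 - ∏ i, Φ (√(x i) * t)) / t ^ 2) := by
  have hΦ := cont_Φ hS
  have : Continuous (fun t : ℝ => 1 - ∏ i, Φ (√(x i) * t)) := by fun_prop
  exact this.measurable.div (by fun_prop)

theorem integrand_integrable (hC₀ : 1 ≤ C₀) (hS : Sys C₀ c₀ δ Φ G b b')
    (h1 : ∀ t, 0 ≤ t → |Φ t| ≤ 1)
    (h3 : ∀ t, 0 ≤ t → 1 - Φ t ≤ (1 + 2 * C₀) * t ^ 2)
    {n : ℕ} {x : Fin n → ℝ} (hx : ∀ i, 0 ≤ x i) (hsum : ∑ i, x i = 1) :
    IntegrableOn (fun t : ℝ => (1 - ∏ i, Φ (√(x i) * t)) / t ^ 2) (Ioi 0) := by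
  refine Integrable.mono' (integrableOn_min (by linarith : 0 ≤ 1 + 2 * C₀) (by norm_num : (0:ℝ) ≤ 2))
    (integrand_meas hS x).aestronglyMeasurable ?_
  refine ae_restrict_of_forall_mem measurableSet_Ioi fun t ht => ?_
  exact integrand_bound h1 h3 hx hsum ht

theorem F_continuousOn (hC₀ : 1 ≤ C₀) (hS : Sys C₀ c₀ δ Φ G b b')
    (h1 : ∀ t, 0 ≤ t → |Φ t| ≤ 1)
    (h3 : ∀ t, 0 ≤ t → 1 - Φ t ≤ (1 + 2 * C₀) * t ^ 2) (n : ℕ) :
    ContinuousOn (fun x : Fin n → ℝ => F Φ x) (stdSimplex ℝ (Fin n)) := by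
  have hΦ := cont_Φ hS
  unfold F
  refine continuousOn_of_dominated (bound := fun t => min (1 + 2 * C₀) (2 / t ^ 2))
    (fun x _ => (integrand_meas hS x).aestronglyMeasurable) ?_
    (integrableOn_min (by linarith : 0 ≤ 1 + 2 * C₀) (by norm_num : (0:ℝ) ≤ 2)) ?_
  · intro x hx
    refine ae_restrict_of_forall_mem measurableSet_Ioi fun t ht => ?_
    exact integrand_bound h1 h3 hx.1 hx.2 ht
  · refine Filter.Eventually.of_forall fun t => ?_
    apply Continuous.continuousOn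
    fun_prop

theorem hasDerivAt_left (hS : Sys C₀ c₀ δ Φ G b b') {a s t : ℝ} (h : 0 < a + s) :
    HasDerivAt (fun s => Φ (√(a + s) * t))
      (-(t ^ 2 / 2) * (Φ (√(a + s) * t) + δ * G (√(a + s) * t))) s := by
  have h1 : HasDerivAt (fun s : ℝ => √(a + s) * t) (1 / (2 * √(a + s)) * t) s :=
    (((hasDerivAt_id s).const_add a).sqrt h.ne').mul_const t
  have h2 := (hS.Φ_deriv (√(a + s) * t)).comp s h1
  have hpos : 0 < √(a + s) := Real.sqrt_pos.2 h
  have h3 : -(√(a + s) * t) * (Φ (√(a + s) * t) + δ * G (√(a + s) * t)) *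
      (1 / (2 * √(a + s)) * t) =
      -(t ^ 2 / 2) * (Φ (√(a + s) * t) + δ * G (√(a + s) * t)) := by
    field_simp
  rw [h3] at h2
  exact h2

theorem hasDerivAt_right (hS : Sys C₀ c₀ δ Φ G b b') {β s t : ℝ} (h : 0 < β - s) :
    HasDerivAt (fun s => Φ (√(β - s) * t))
      ((t ^ 2 / 2) * (Φ (√(β - s) * t) + δ * G (√(β - s) * t))) s := by
  have h1 : HasDerivAt (fun s : ℝ => √(β - s) * t) ((-1) / (2 * √(β - s)) * t) s :=
    (((hasDerivAt_id s).const_sub β).sqrt h.ne').mul_const t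
  have h2 := (hS.Φ_deriv (√(β - s) * t)).comp s h1
  have hpos : 0 < √(β - s) := Real.sqrt_pos.2 h
  have h3 : -(√(β - s) * t) * (Φ (√(β - s) * t) + δ * G (√(β - s) * t)) *
      ((-1) / (2 * √(β - s)) * t) =
      (t ^ 2 / 2) * (Φ (√(β - s) * t) + δ * G (√(β - s) * t)) := by
    field_simp
  rw [h3] at h2
  exact h2

theorem Wf_cont (hS : Sys C₀ c₀ δ Φ G b b') (a β : ℝ) :
    Continuous (fun p : ℝ × ℝ => Wf Φ G (a + p.1) (β - p.1) p.2) := by
  have hΦ := cont_Φ hS
  have hG := cont_G hS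
  unfold Wf
  fun_prop

/-- the fundamental theorem of calculus in the merging parameter -/
theorem ftc_merge (hS : Sys C₀ c₀ δ Φ G b b') {a β : ℝ} (ha : 0 ≤ a) (hab : a < β) (t r : ℝ) :
    Φ (√((a + β) / 2) * t) * Φ (√((a + β) / 2) * t) * r - Φ (√a * t) * Φ (√β * t) * r =
      ∫ s in (0 : ℝ)..((β - a) / 2), (t ^ 2 / 2) * δ * (Wf Φ G (a + s) (β - s) t * r) := by
  have hΦ := cont_Φ hS
  have hG := cont_G hS
  set ε := (β - a) / 2 with hε
  have hε0 : 0 < ε := by rw [hε]; linarith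
  have hcont : ContinuousOn (fun s : ℝ => Φ (√(a + s) * t) * Φ (√(β - s) * t) * r)
      (Icc 0 ε) := by
    apply Continuous.continuousOn
    fun_prop
  have hder : ∀ s ∈ Ioo (0 : ℝ) ε, HasDerivAt
      (fun s : ℝ => Φ (√(a + s) * t) * Φ (√(β - s) * t) * r)
      ((t ^ 2 / 2) * δ * (Wf Φ G (a + s) (β - s) t * r)) s := by
    intro s hs
    have h1 := hasDerivAt_left hS (t := t) (by linarith [hs.1] : 0 < a + s)
    have h2 := hasDerivAt_right hS (t := t) (by linarith [hs.2] : 0 < β - s)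
    have h3 : HasDerivAt (fun s : ℝ => Φ (√(a + s) * t) * Φ (√(β - s) * t) * r) _ s :=
      (h1.mul h2).mul_const r
    exact h3.congr_deriv (by unfold Wf; ring)
  have hint : IntervalIntegrable
      (fun s : ℝ => (t ^ 2 / 2) * δ * (Wf Φ G (a + s) (β - s) t * r)) volume 0 ε := by
    apply Continuous.intervalIntegrable
    unfold Wf
    fun_prop
  have := intervalIntegral.integral_eq_sub_of_hasDerivAt_of_le hε0.le hcont hder hint
  rw [this]
  have e1 : a + ε = (a + β) / 2 := by rw [hε]; ring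
  have e2 : β - ε = (a + β) / 2 := by rw [hε]; ring
  simp only [e1, e2, add_zero, sub_zero]

theorem Wf_bound1 (hC₀ : 1 ≤ C₀)
    (h1 : ∀ t, 0 ≤ t → |Φ t| ≤ 1) (hG0 : ∀ t, 0 ≤ t → 0 ≤ G t) (hG1 : ∀ t, 0 ≤ t → G t ≤ 2 * C₀)
    {x y t : ℝ} (ht : 0 ≤ t) : |Wf Φ G x y t| ≤ 4 * C₀ := by
  unfold Wf
  have hx : 0 ≤ √x * t := by positivity
  have hy : 0 ≤ √y * t := by positivity
  refine (abs_sub _ _).trans ?_
  rw [abs_mul, abs_mul, abs_of_nonneg (hG0 _ hx), abs_of_nonneg (hG0 _ hy)]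
  have a1 : |Φ (√x * t)| * G (√y * t) ≤ 1 * (2 * C₀) :=
    mul_le_mul (h1 _ hx) (hG1 _ hy) (hG0 _ hy) (by norm_num)
  have a2 : G (√x * t) * |Φ (√y * t)| ≤ (2 * C₀) * 1 :=
    mul_le_mul (hG1 _ hx) (h1 _ hy) (abs_nonneg _) (by linarith)
  linarith

theorem Wf_bound2 (hC₀ : 1 ≤ C₀)
    (h2 : ∀ t, 0 < t → |Φ t| ≤ 2 / t) (hG0 : ∀ t, 0 ≤ t → 0 ≤ G t)
    (hG2 : ∀ t, 0 < t → G t ≤ 2 * C₀ / t)
    {x y t : ℝ} (hx : 0 < x) (hy : 0 < y) (ht : 0 < t) :
    |Wf Φ G x y t| ≤ 8 * C₀ / (√x * √y * t ^ 2) := by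
  unfold Wf
  have hx' : 0 < √x := Real.sqrt_pos.2 hx
  have hy' : 0 < √y := Real.sqrt_pos.2 hy
  have hxt : 0 < √x * t := by positivity
  have hyt : 0 < √y * t := by positivity
  refine (abs_sub _ _).trans ?_
  rw [abs_mul, abs_mul, abs_of_nonneg (hG0 _ hxt.le), abs_of_nonneg (hG0 _ hyt.le)]
  have a1 : |Φ (√x * t)| * G (√y * t) ≤ (2 / (√x * t)) * (2 * C₀ / (√y * t)) :=
    mul_le_mul (h2 _ hxt) (hG2 _ hyt) (hG0 _ hyt.le) (by positivity)
  have a2 : G (√x * t) * |Φ (√y * t)| ≤ (2 * C₀ / (√x * t)) * (2 / (√y * t)) :=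
    mul_le_mul (hG2 _ hxt) (h2 _ hyt) (abs_nonneg _) (by positivity)
  have a3 : (2 / (√x * t)) * (2 * C₀ / (√y * t)) + (2 * C₀ / (√x * t)) * (2 / (√y * t)) =
      8 * C₀ / (√x * √y * t ^ 2) := by
    field_simp
    ring
  linarith

/-- Merging two different coordinates decreases the functional. -/
theorem merge_pos (hC₀ : 1 ≤ C₀) (hδ : 0 < δ) (hS : Sys C₀ c₀ δ Φ G b b')
    (h1 : ∀ t, 0 ≤ t → |Φ t| ≤ 1) (h2 : ∀ t, 0 < t → |Φ t| ≤ 2 / t)
    (hG0 : ∀ t, 0 ≤ t → 0 ≤ G t) (hG1 : ∀ t, 0 ≤ t → G t ≤ 2 * C₀)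
    (hG2 : ∀ t, 0 < t → G t ≤ 2 * C₀ / t)
    {a β : ℝ} (ha : 0 ≤ a) (hab : a < β) (R : ℝ → ℝ) (hRc : Continuous R)
    (hR1 : ∀ t, 0 ≤ t → |R t| ≤ 1)
    (hpos : ∀ s ∈ Ioo (0 : ℝ) ((β - a) / 2),
      0 < ∫ t in Ioi (0 : ℝ), Wf Φ G (a + s) (β - s) t * R t) :
    0 < ∫ t in Ioi (0 : ℝ), (Φ (√((a + β) / 2) * t) * Φ (√((a + β) / 2) * t) * R t -
      Φ (√a * t) * Φ (√β * t) * R t) / t ^ 2 := by
  set ε := (β - a) / 2 with hε
  have hε0 : 0 < ε := by rw [hε]; linarith
  have hβ : 0 < β := lt_of_le_of_lt ha hab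
  set K := 8 * C₀ / √(β / 2) with hK
  have hK0 : 0 ≤ K := by positivity
  -- the integrand
  set H : ℝ → ℝ → ℝ := fun s t => Wf Φ G (a + s) (β - s) t * R t with hH
  have hHc : Continuous (Function.uncurry H) := by
    have := Wf_cont hS a β
    exact this.mul (hRc.comp continuous_snd)
  -- domination
  have hdom : ∀ s ∈ Ioo (0 : ℝ) ε, ∀ t ∈ Ioi (0 : ℝ),
      ‖H s t‖ ≤ (4 * C₀ + K * (s ^ (-(1 / 2) : ℝ))) * min 1 (1 / t ^ 2) := by
    intro s hs t ht
    have hs0 : 0 < s := hs.1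
    have ht0 : 0 < t := ht
    have hrs : s ^ (-(1 / 2) : ℝ) = 1 / √s := by
      rw [Real.rpow_neg hs0.le, ← Real.sqrt_eq_rpow, one_div]
    rw [hrs, Real.norm_eq_abs]
    simp only [hH]
    rw [abs_mul]
    have b0 : |Wf Φ G (a + s) (β - s) t| * |R t| ≤ |Wf Φ G (a + s) (β - s) t| * 1 :=
      mul_le_mul_of_nonneg_left (hR1 t ht0.le) (abs_nonneg _)
    have b1 := Wf_bound1 hC₀ h1 hG0 hG1 (x := a + s) (y := β - s) ht0.le
    have hbs : β / 2 ≤ β - s := by
      have := hs.2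
      rw [hε] at this
      linarith
    have b2 := Wf_bound2 hC₀ h2 hG0 hG2 (x := a + s) (y := β - s) (by linarith)
      (by linarith) ht0
    have hsq : 0 < √s := Real.sqrt_pos.2 hs0
    have hsq2 : 0 < √(β / 2) := Real.sqrt_pos.2 (by linarith)
    have b3 : 8 * C₀ / (√(a + s) * √(β - s) * t ^ 2) ≤ K * (1 / √s) * (1 / t ^ 2) := by
      have c1 : √s ≤ √(a + s) := Real.sqrt_le_sqrt (by linarith)
      have c2 : √(β / 2) ≤ √(β - s) := Real.sqrt_le_sqrt hbs
      have c3 : K * (1 / √s) * (1 / t ^ 2) = 8 * C₀ / (√s * √(β / 2) * t ^ 2) := by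
        rw [hK]; field_simp
      rw [c3]
      apply div_le_div_of_nonneg_left (by linarith) (by positivity)
      apply mul_le_mul_of_nonneg_right _ (by positivity)
      exact mul_le_mul c1 c2 hsq2.le (Real.sqrt_nonneg _)
    have hK1 : 0 ≤ K * (1 / √s) := by positivity
    have ht2 : 0 < 1 / t ^ 2 := by positivity
    rcases le_total (1 : ℝ) (1 / t ^ 2) with hc | hc
    · rw [min_eq_left hc]; linarith
    · rw [min_eq_right hc]
      have : 0 ≤ 4 * C₀ * (1 / t ^ 2) := by positivity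
      have e : (4 * C₀ + K * (1 / √s)) * (1 / t ^ 2) =
        4 * C₀ * (1 / t ^ 2) + K * (1 / √s) * (1 / t ^ 2) := by ring
      rw [e]
      linarith
  -- integrability on the product
  have hgint : IntegrableOn (fun s : ℝ => 4 * C₀ + K * (s ^ (-(1 / 2) : ℝ))) (Ioo 0 ε) := by
    have i1 : IntervalIntegrable (fun s : ℝ => s ^ (-(1 / 2) : ℝ)) volume 0 ε :=
      intervalIntegral.intervalIntegrable_rpow' (by norm_num)
    have i2 : IntegrableOn (fun s : ℝ => s ^ (-(1 / 2) : ℝ)) (Ioo 0 ε) := by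
      rw [intervalIntegrable_iff_integrableOn_Ioo_of_le hε0.le] at i1
      exact i1
    have i3 : IntegrableOn (fun _ : ℝ => 4 * C₀) (Ioo 0 ε) :=
      ((continuous_const : Continuous fun _ : ℝ => 4 * C₀).integrableOn_Ioc
        (a := 0) (b := ε)).mono_set Ioo_subset_Ioc_self
    exact i3.add (i2.const_mul K)
  have hhint : IntegrableOn (fun t : ℝ => min 1 (1 / t ^ 2)) (Ioi 0) :=
    integrableOn_min (by norm_num) (by norm_num)
  have hprod : Integrable (Function.uncurry H)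
      ((volume.restrict (Ioo (0 : ℝ) ε)).prod (volume.restrict (Ioi (0 : ℝ)))) := by
    have hm := Integrable.mul_prod hgint hhint
    refine Integrable.mono' hm hHc.aestronglyMeasurable ?_
    rw [Measure.prod_restrict]
    refine ae_restrict_of_forall_mem (measurableSet_Ioo.prod measurableSet_Ioi) ?_
    rintro ⟨s, t⟩ ⟨hs, ht⟩
    exact hdom s hs t ht
  -- positivity of the double integral
  have hdouble : 0 < ∫ s in Ioo (0 : ℝ) ε, ∫ t in Ioi (0 : ℝ), H s t := by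
    have hI : Integrable (fun s => ∫ t in Ioi (0 : ℝ), H s t)
        (volume.restrict (Ioo (0 : ℝ) ε)) := hprod.integral_prod_left
    rw [integral_pos_iff_support_of_nonneg_ae ?_ hI]
    · rw [Measure.restrict_apply' measurableSet_Ioo]
      have hsub : Ioo (0 : ℝ) ε ⊆
          Function.support (fun s => ∫ t in Ioi (0 : ℝ), H s t) ∩ Ioo (0 : ℝ) ε :=
        fun s hs => ⟨(hpos s hs).ne', hs⟩
      refine lt_of_lt_of_le ?_ (measure_mono hsub)
      rw [Real.volume_Ioo]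
      simpa using hε0
    · exact ae_restrict_of_forall_mem measurableSet_Ioo fun s hs => (hpos s hs).le
  -- rewrite the integral
  have hrew : ∀ t ∈ Ioi (0 : ℝ), (Φ (√((a + β) / 2) * t) * Φ (√((a + β) / 2) * t) * R t -
      Φ (√a * t) * Φ (√β * t) * R t) / t ^ 2 = (δ / 2) * ∫ s in Ioo (0 : ℝ) ε, H s t := by
    intro t ht
    have ht0 : (0 : ℝ) < t := ht
    rw [ftc_merge hS ha hab t (R t), intervalIntegral.integral_const_mul,
      intervalIntegral.integral_of_le hε0.le, integral_Ioc_eq_integral_Ioo]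
    simp only [hH]
    generalize (∫ s in Ioo (0 : ℝ) ε, Wf Φ G (a + s) (β - s) t * R t) = I
    field_simp
  rw [setIntegral_congr_fun measurableSet_Ioi hrew, integral_const_mul]
  have hswap := integral_integral_swap hprod
  rw [← hswap]
  positivity

end main

/-- Packet B. -/
theorem pktB : PktB := by
  intro C₀ c₀ δ Φ G b b' hC₀ hδ _ hS h1 h2 h3 hG0 hG1 hG2 hkey n hn
  have hΦ := cont_Φ hS
  -- a non-constant point can be improved
  have improve : ∀ x : Fin n → ℝ, (∀ i, 0 ≤ x i) → ∑ i, x i = 1 → (¬ ∀ i, x i = 1 / n) →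
      ∃ y ∈ stdSimplex ℝ (Fin n), F Φ y < F Φ x := by
    intro x hx hsum hne
    have : Nonempty (Fin n) := ⟨⟨0, hn⟩⟩
    obtain ⟨j, -, hj⟩ := Finset.exists_max_image (Finset.univ : Finset (Fin n)) x
      Finset.univ_nonempty
    have hex : ∃ i, x i < x j := by
      by_contra hcon
      push Not at hcon
      apply hne
      have heq : ∀ i, x i = x j := fun i => le_antisymm (hj i (Finset.mem_univ _)) (hcon i)
      have hs2 : ∑ i, x i = n * x j := by
        rw [Finset.sum_congr rfl (fun i _ => heq i)]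
        simp
      have hn' : (n : ℝ) ≠ 0 := by exact_mod_cast hn.ne'
      intro i
      rw [heq i]
      rw [hs2] at hsum
      field_simp
      linarith
    obtain ⟨i, hi⟩ := hex
    have hij : i ≠ j := by rintro rfl; exact lt_irrefl _ hi
    set s := ((Finset.univ : Finset (Fin n)).erase i).erase j with hs
    have hjmem : j ∈ (Finset.univ : Finset (Fin n)).erase i :=
      Finset.mem_erase.2 ⟨hij.symm, Finset.mem_univ _⟩
    -- splitting products and sums
    have hprod : ∀ f : Fin n → ℝ, ∏ l, f l = f i * f j * ∏ l ∈ s, f l := by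
      intro f
      rw [← Finset.mul_prod_erase _ f (Finset.mem_univ i), ← Finset.mul_prod_erase _ f hjmem,
        mul_assoc]
    have hsumm : ∀ f : Fin n → ℝ, ∑ l, f l = f i + f j + ∑ l ∈ s, f l := by
      intro f
      rw [← Finset.add_sum_erase _ f (Finset.mem_univ i), ← Finset.add_sum_erase _ f hjmem,
        add_assoc]
    set c := (x i + x j) / 2 with hc
    set y : Fin n → ℝ := Function.update (Function.update x i c) j c with hy
    have hyi : y i = c := by rw [hy]; simp [Function.update_of_ne hij]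
    have hyj : y j = c := by rw [hy]; simp
    have hys : ∀ l ∈ s, y l = x l := by
      intro l hl
      rw [hs, Finset.mem_erase, Finset.mem_erase] at hl
      rw [hy, Function.update_of_ne hl.1, Function.update_of_ne hl.2.1]
    have hy0 : ∀ l, 0 ≤ y l := by
      intro l
      have hc0 : 0 ≤ c := by rw [hc]; linarith [hx i, hx j]
      by_cases hlj : l = j
      · rw [hlj, hyj]; exact hc0
      by_cases hli : l = i
      · rw [hli, hyi]; exact hc0
      rw [hys l (by rw [hs]; simp [hlj, hli])]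
      exact hx l
    have hysum : ∑ l, y l = 1 := by
      rw [hsumm, hyi, hyj, Finset.sum_congr rfl hys, ← hsum, hsumm x, hc]
      ring
    refine ⟨y, ⟨hy0, hysum⟩, ?_⟩
    set R : ℝ → ℝ := fun t => ∏ l ∈ s, Φ (√(x l) * t) with hR
    have hRc : Continuous R := by rw [hR]; fun_prop
    have hR1 : ∀ t, 0 ≤ t → |R t| ≤ 1 := fun t ht =>
      (abs_one_sub_prod_le s (fun l => Φ (√(x l) * t)) (fun l _ => h1 _ (by positivity))).1
    have hpos : ∀ σ ∈ Ioo (0 : ℝ) ((x j - x i) / 2),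
        0 < ∫ t in Ioi (0 : ℝ), Wf Φ G (x i + σ) (x j - σ) t * R t := by
      intro σ hσ
      have hσ1 := hσ.1
      have hσ2 := hσ.2
      refine hkey (x i + σ) (x j - σ) n s x (by linarith [hx i]) (by linarith) ?_ ?_
      · intro l _
        have h5 := hj l (Finset.mem_univ _)
        have h6 := hx i
        exact ⟨hx l, by linarith⟩
      · rw [← hsum, hsumm x]; ring
    have hmain := merge_pos hC₀ hδ hS h1 h2 hG0 hG1 hG2 (hx i) hi R hRc hR1 hpos
    have hix := integrand_integrable hC₀ hS h1 h3 hx hsum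
    have hiy := integrand_integrable hC₀ hS h1 h3 hy0 hysum
    have hdiff : F Φ x - F Φ y = ∫ t in Ioi (0 : ℝ),
        (Φ (√((x i + x j) / 2) * t) * Φ (√((x i + x j) / 2) * t) * R t -
          Φ (√(x i) * t) * Φ (√(x j) * t) * R t) / t ^ 2 := by
      unfold F
      rw [← integral_sub hix hiy]
      refine integral_congr_ae (Filter.Eventually.of_forall fun t => ?_)
      simp only
      rw [hprod (fun l => Φ (√(x l) * t)), hprod (fun l => Φ (√(y l) * t)), hyi, hyj]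
      have : ∏ l ∈ s, Φ (√(y l) * t) = R t := by
        rw [hR]
        exact Finset.prod_congr rfl (fun l hl => by rw [hys l hl])
      rw [this, ← hc]
      show _ = _
      have hRt : ∏ l ∈ s, Φ (√(x l) * t) = R t := rfl
      rw [hRt]
      ring
    linarith [hdiff ▸ hmain]
  -- existence of a minimiser
  have hcs : IsCompact (stdSimplex ℝ (Fin n)) := isCompact_stdSimplex ℝ (Fin n)
  have hconst : (fun _ : Fin n => (1 : ℝ) / n) ∈ stdSimplex ℝ (Fin n) := by
    have hn' : (n : ℝ) ≠ 0 := by exact_mod_cast hn.ne'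
    refine ⟨fun _ => by positivity, ?_⟩
    simp [hn']
  obtain ⟨z, hz, hzmin⟩ := hcs.exists_isMinOn ⟨_, hconst⟩ (F_continuousOn hC₀ hS h1 h3 n)
  have hzc : ∀ i, z i = 1 / n := by
    by_contra hcon
    obtain ⟨y, hy, hlt⟩ := improve z hz.1 hz.2 hcon
    exact absurd (hzmin hy) (not_le.2 hlt)
  have hzeq : z = fun _ : Fin n => (1 : ℝ) / n := funext hzc
  intro x hx hsum
  have hmin : F Φ (fun _ : Fin n => (1 : ℝ) / n) ≤ F Φ x := by
    rw [← hzeq]
    exact hzmin (show x ∈ stdSimplex ℝ (Fin n) from ⟨hx, hsum⟩)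
  refine ⟨hmin, fun heq => ?_⟩
  by_contra hcon
  obtain ⟨y, hy, hlt⟩ := improve x hx hsum hcon
  have : F Φ z ≤ F Φ y := hzmin hy
  rw [hzeq] at this
  linarith

end Pool.Agent.Helper7.Proj.PB
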