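import Pool.Agent.Helper7.Proj.KeyA3
import Pool.Agent.Helper7.Proj.PktB
import Pool.Agent.Helper18.Proj.PktC1
import Pool.Agent.Helper13.Proj.PacketD
import Pool.Agent.Helper85.Proj.PktE

/-!
# Assembly
-/

namespace Pool.Agent.Helper7.Proj

open MeasureTheory Set Real

lemma phi_zero {q : ℝ} (hq : Zd q ≠ 0) : phi q 0 = 1 := by
  unfold phi
  simp only [zero_mul, Real.cos_zero, one_mul]
  exact div_self hq

lemma psi_zero {q : ℝ} (hq : Zo q ≠ 0) : psi q 0 = 1 := by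
  unfold psi
  simp only [zero_mul, Real.cos_zero, one_mul]
  exact div_self hq

lemma phi_neg (q t : ℝ) : phi q (-t) = phi q t := by
  unfold phi
  simp only [neg_mul, Real.cos_neg]

lemma phi_abs (q t : ℝ) : phi q |t| = phi q t := by
  rcases abs_cases t with h | h
  · rw [h.1]
  · rw [h.1, phi_neg]

lemma Bf_zero (q : ℝ) : Bf q 0 = 0 := by
  unfold Bf
  simp

theorem sysExists (hC2 : PktC2) : ∃ C₀ c₀ δ₁ : ℝ, 1 ≤ C₀ ∧ 0 < c₀ ∧ 0 < δ₁ ∧ δ₁ ≤ 1 ∧
    ∀ δ, 0 < δ → δ ≤ δ₁ → ∃ (k : ℝ) (G b b' : ℝ → ℝ), 0 < k ∧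
      Sys C₀ c₀ δ (fun t => phi (2 + δ) (k * t)) G b b' := by
  obtain ⟨C, c, δ₁, hC, hc, hδ₁, hδ₁1, h⟩ := hC2
  refine ⟨max 1 (2 * C), c, δ₁, le_max_left _ _, hc, hδ₁, hδ₁1, ?_⟩
  intro δ hδ hδ1
  obtain ⟨hk1, hk2, hB1, hB2, hB3⟩ := h δ hδ hδ1
  obtain ⟨hφ, hψ, hB⟩ := Pool.Agent.Helper18.Proj.pktC1 (2 + δ) (by linarith) (by linarith)
  set q := 2 + δ with hq
  set κ := kap q with hκ
  have hκ0 : 0 < κ := by linarith
  set k := 1 / √κ with hk
  have hsκ : 0 < √κ := Real.sqrt_pos.2 hκ0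
  have hk0 : 0 < k := by positivity
  have hkk : k ^ 2 * κ = 1 := by
    rw [hk, div_pow, Real.sq_sqrt hκ0.le]
    field_simp
  have hkge : 1 ≤ k := by
    rw [hk, le_div_iff₀ hsκ, one_mul]
    exact Real.sqrt_le_one.2 hk2
  have hkle : k ≤ 2 := by
    have h1 : 1 / 2 ≤ √κ := by
      rw [Real.le_sqrt (by norm_num) hκ0.le]
      norm_num
      linarith
    rw [hk, div_le_iff₀ hsκ]
    linarith
  have hZo : Zo q ≠ 0 := by
    intro h0
    have : κ = 0 := by rw [hκ]; unfold kap; rw [h0]; simp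
    linarith
  have hZd : Zd q ≠ 0 := by
    intro h0
    have : κ = 0 := by rw [hκ]; unfold kap; rw [h0]; simp
    linarith
  have hlin : ∀ t : ℝ, HasDerivAt (fun t : ℝ => k * t) k t := fun t => by
    simpa using (hasDerivAt_id t).const_mul k
  have hmax : 2 * C ≤ max 1 (2 * C) := le_max_right _ _
  refine ⟨k, fun t => (psi q (k * t) - phi q (k * t)) / δ, fun t => k / δ * Bf q (k * t),
    fun t => k ^ 2 / δ * Bf' q (k * t), hk0, ?_⟩
  constructor
  · intro t ht
    have := (hB1 (k * t) (by positivity)).1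
    positivity
  · intro t ht
    rcases ht.eq_or_lt with h0 | h0
    · rw [← h0, mul_zero, Bf_zero, mul_zero]
      exact le_trans zero_le_one (le_max_left _ _)
    · have h1 := (hB1 (k * t) (by positivity)).2
      have h2 := mul_le_mul_of_nonneg_left h1 (by positivity : 0 ≤ k / δ)
      have h3 : k / δ * (C * δ) = k * C := by field_simp
      rw [h3] at h2
      nlinarith
  · intro t ht ht1
    have h1 := hB2 (k * t) (by positivity) (by nlinarith)
    have h2 := mul_le_mul_of_nonneg_left h1 (by positivity : 0 ≤ k / δ)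
    have h3 : k / δ * (c * δ * (k * t)) = k ^ 2 * (c * t) := by field_simp
    rw [h3] at h2
    have h4 : 0 ≤ c * t := by positivity
    have h5 : 1 ≤ k ^ 2 := by nlinarith
    nlinarith
  · intro t ht
    have h1 := ((hB (k * t)).comp t (hlin t)).const_mul (k / δ)
    refine h1.congr_deriv ?_
    ring
  · intro t ht
    have h1 := hB3 (k * t) (by positivity)
    rw [abs_mul, abs_of_nonneg (by positivity : 0 ≤ k ^ 2 / δ)]
    have h2 := mul_le_mul_of_nonneg_left h1 (by positivity : 0 ≤ k ^ 2 / δ)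
    refine h2.trans ?_
    have h3 : k ^ 2 / δ * (C * δ / (k * t)) = k * C / t := by field_simp
    rw [h3]
    apply div_le_div_of_nonneg_right _ ht.le
    nlinarith
  · have : Continuous (Bf q) := continuous_iff_continuousAt.2 fun t => (hB t).continuousAt
    fun_prop
  · simp only [mul_zero]
    rw [phi_zero hZd, psi_zero hZo]
    simp
  · intro t
    have h1 := (((hψ (k * t)).comp t (hlin t)).fun_sub ((hφ (k * t)).comp t (hlin t))).div_const δ
    refine h1.congr_deriv ?_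
    have hk2' : κ * k ^ 2 = 1 := by rw [mul_comm]; exact hkk
    have e1 : ((Bf q (k * t) - 2 * κ * (k * t) * psi q (k * t) + κ * (k * t) * phi q (k * t)) * k -
        -κ * (k * t) * psi q (k * t) * k) / δ =
        -((κ * k ^ 2) * t) * ((psi q (k * t) - phi q (k * t)) / δ) + k / δ * Bf q (k * t) := by
      field_simp
      ring
    rw [e1, hk2', one_mul]
  · simp only [mul_zero]
    exact phi_zero hZd
  · intro t
    have h1 := (hφ (k * t)).comp t (hlin t)
    refine h1.congr_deriv ?_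
    have hk2' : κ * k ^ 2 = 1 := by rw [mul_comm]; exact hkk
    have e1 : -κ * (k * t) * psi q (k * t) * k = -((κ * k ^ 2) * t) * psi q (k * t) := by ring
    rw [e1, hk2']
    field_simp
    ring

/-- Scaling. -/
lemma scale {n : ℕ} (q k : ℝ) (hk : 0 < k) (u : Fin n → ℝ) :
    ∫ t in Ioi (0 : ℝ), (1 - ∏ i, phi q (u i * t)) / t ^ 2 =
      k⁻¹ * F (fun t => phi q (k * t)) (fun i => u i ^ 2) := by
  have h1 := integral_comp_mul_left_Ioi
    (fun t : ℝ => (1 - ∏ i, phi q (u i * t)) / t ^ 2) 0 hk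
  rw [mul_zero] at h1
  have h2 : F (fun t => phi q (k * t)) (fun i => u i ^ 2) =
      ∫ t in Ioi (0 : ℝ), k ^ 2 * ((1 - ∏ i, phi q (u i * (k * t))) / (k * t) ^ 2) := by
    unfold F
    apply setIntegral_congr_fun measurableSet_Ioi
    intro t ht
    have ht0 : (0 : ℝ) < t := ht
    simp only
    have h3 : ∀ i, phi q (k * (√(u i ^ 2) * t)) = phi q (u i * (k * t)) := by
      intro i
      rw [Real.sqrt_sq_eq_abs]
      have h4 : k * (|u i| * t) = |u i * (k * t)| := by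
        rw [abs_mul, abs_of_pos (mul_pos hk ht0)]
        ring
      rw [h4, phi_abs]
    simp only [h3]
    generalize (1 - ∏ i, phi q (u i * (k * t))) = y
    field_simp
  rw [h2, integral_const_mul, h1, smul_eq_mul]
  field_simp

theorem main (hC2 : PktC2) : ∃ p₀ : ℝ, 1 < p₀ ∧ p₀ < 2 ∧ ∀ p, p₀ < p → p < 2 →
    ∀ n : ℕ, 0 < n → ∀ u : EuclideanSpace ℝ (Fin n), ‖u‖ = 1 →
      ((∀ v : EuclideanSpace ℝ (Fin n), ‖v‖ = 1 → projVol p n u ≤ projVol p n v) ↔
        ∀ i, |u i| = 1 / √n) := by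
  obtain ⟨C₀, c₀, δ₁, hC₀, hc₀, hδ₁, hδ₁1, hsys⟩ := sysExists hC2
  obtain ⟨δ₀, hδ₀, hδ₀1, hkey⟩ := pktA C₀ c₀ hC₀ hc₀
  set δ₂ := min (min δ₀ δ₁) (1 / (100 * C₀)) with hδ₂
  have hC0 : 0 < C₀ := by linarith
  have hδ₂0 : 0 < δ₂ := by positivity
  have hδ₂1 : δ₂ ≤ 1 := (min_le_left _ _).trans ((min_le_left _ _).trans hδ₀1)
  refine ⟨(2 + δ₂) / (1 + δ₂), ?_, ?_, ?_⟩
  · rw [lt_div_iff₀ (by linarith)]; linarith
  · rw [div_lt_iff₀ (by linarith)]; linarith
  intro p hp1 hp2 n hn u hu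
  have hp : 1 < p := by
    refine lt_of_le_of_lt ?_ hp1
    rw [le_div_iff₀ (by linarith)]; linarith
  set δ := (2 - p) / (p - 1) with hδdef
  have hp10 : 0 < p - 1 := by linarith
  have hδ : 0 < δ := div_pos (by linarith) hp10
  have hδle : δ ≤ δ₂ := by
    rw [hδdef, div_le_iff₀ hp10]
    rw [div_lt_iff₀ (by linarith)] at hp1
    linarith
  have hq : p / (p - 1) = 2 + δ := by
    rw [hδdef]; field_simp; ring
  obtain ⟨k, G, b, b', hk, hS⟩ := hsys δ hδ (hδle.trans ((min_le_left _ _).trans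
    (min_le_right _ _)))
  set Φ := (fun t => phi (2 + δ) (k * t)) with hΦ
  have hδC : C₀ * δ ≤ 1 / 100 := by
    have h1 := hδle.trans (min_le_right _ _)
    rw [le_div_iff₀ (by positivity)] at h1
    linarith
  have h4 : 4 * C₀ * δ ≤ 1 := by linarith
  have hmin := Pool.Agent.Helper7.Proj.PB.pktB C₀ c₀ δ Φ G b b' hC₀ hδ (hδle.trans hδ₂1) hS
    (fun t ht => hS.abs_Φ_le_one hC0.le hδ h4 ht)
    (fun t ht => hS.abs_Φ_le_inv hC0.le hδ h4 ht)
    (by
      intro t ht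
      rw [Sys.Φ_eq Φ hδ.ne' t]
      have h5 := mul_le_mul_of_nonneg_left (hS.g_le_sq hC0.le hδ.ne' ht) hδ.le
      have h6 := Real.add_one_le_exp (-t ^ 2 / 2)
      rcases le_total t 1 with ht1 | ht1
      · have h7 : δ * (C₀ * t ^ 3 / 3) ≤ t ^ 2 := by
          have h8 : t ^ 3 ≤ t ^ 2 := by nlinarith [sq_nonneg t]
          have h9 : δ * (C₀ * t ^ 3 / 3) = (C₀ * δ) * t ^ 3 / 3 := by ring
          have h10 : 0 ≤ t ^ 3 := by positivity
          rw [h9]
          nlinarith [mul_nonneg hC0.le hδ.le]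
        have h8 : 0 ≤ t ^ 2 := sq_nonneg t
        nlinarith
      · have h7 := hS.abs_Φ_le_one hC0.le hδ h4 ht
        have h8 := (abs_le.1 h7).1
        rw [Sys.Φ_eq Φ hδ.ne' t] at h8
        have h9 : 1 ≤ t ^ 2 := by nlinarith
        nlinarith)
    (fun t ht => hS.G_nonneg ht) (fun t ht => hS.G_le_const hC0.le ht)
    (fun t ht => hS.G_le_inv hC0.le ht)
    (fun a b m s x ha hab hx hsum => hkey δ Φ G _ _ hδ
      (hδle.trans ((min_le_left _ _).trans (min_le_left _ _))) hS a b m s x ha hab hx hsum)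
    n hn
  obtain ⟨CE, hCE, hE⟩ := Pool.Agent.Helper85.ProjE.pktE p hp hp2 n hn
  obtain ⟨CD, hCD, hD⟩ := Pool.Agent.Helper13.Proj.pktD p hp hp2 n
  have hvol : ∀ v : EuclideanSpace ℝ (Fin n), ‖v‖ = 1 →
      projVol p n v = CE * (CD * (k⁻¹ * F Φ (fun i => v i ^ 2))) := by
    intro v hv
    rw [hE v hv, hD, hq, scale (2 + δ) k hk]
  have hsum : ∀ v : EuclideanSpace ℝ (Fin n), ‖v‖ = 1 → ∑ i, v i ^ 2 = 1 := by
    intro v hv
    have := EuclideanSpace.real_norm_sq_eq v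
    rw [hv] at this
    simpa using this.symm
  have hpos : 0 < CE * (CD * k⁻¹) := by positivity
  -- the diagonal vector
  have hn0 : (0 : ℝ) < n := by exact_mod_cast hn
  have hsn : 0 < √(n : ℝ) := Real.sqrt_pos.2 hn0
  have hdsq : (1 / √(n : ℝ)) ^ 2 = 1 / n := by
    rw [div_pow, Real.sq_sqrt hn0.le, one_pow]
  let d : EuclideanSpace ℝ (Fin n) := WithLp.toLp 2 (fun _ => 1 / √(n : ℝ))
  have hd : ‖d‖ = 1 := by
    have h1 := EuclideanSpace.real_norm_sq_eq d
    have h2 : ∑ i, d i ^ 2 = 1 := by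
      simp only [d, hdsq]
      rw [Finset.sum_const, Finset.card_univ, Fintype.card_fin, nsmul_eq_mul]
      field_simp
    rw [h2] at h1
    have h3 : 0 ≤ ‖d‖ := norm_nonneg d
    nlinarith
  have hdF : F Φ (fun i => d i ^ 2) = F Φ (fun _ : Fin n => (1 : ℝ) / n) := by
    congr 1
    funext i
    simp only [d, hdsq]
  constructor
  · intro hall
    have h1 := hall d hd
    rw [hvol u hu, hvol d hd, hdF] at h1
    have h2 : F Φ (fun i => u i ^ 2) ≤ F Φ (fun _ : Fin n => (1 : ℝ) / n) := by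
      have e1 : CE * (CD * (k⁻¹ * F Φ (fun i => u i ^ 2))) =
          CE * (CD * k⁻¹) * F Φ (fun i => u i ^ 2) := by ring
      have e2 : CE * (CD * (k⁻¹ * F Φ (fun _ : Fin n => (1 : ℝ) / n))) =
          CE * (CD * k⁻¹) * F Φ (fun _ : Fin n => (1 : ℝ) / n) := by ring
      rw [e1, e2] at h1
      exact le_of_mul_le_mul_left h1 hpos
    obtain ⟨h3, h5⟩ := hmin (fun i => u i ^ 2) (fun i => sq_nonneg _) (hsum u hu)
    have h6 := h5 (le_antisymm h2 h3)
    intro i
    have h7 : |u i| ^ 2 = (1 / √(n : ℝ)) ^ 2 := by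
      rw [sq_abs, hdsq]
      exact h6 i
    exact (pow_left_inj₀ (abs_nonneg _) (by positivity) (by norm_num)).1 h7
  · intro hdiag v hv
    have h1 : (fun i => u i ^ 2) = (fun _ : Fin n => (1 : ℝ) / n) := by
      funext i
      rw [← sq_abs, hdiag i, hdsq]
    rw [hvol u hu, hvol v hv, h1]
    have h2 := (hmin (fun i => v i ^ 2) (fun i => sq_nonneg _) (hsum v hv)).1
    gcongr

end Pool.Agent.Helper7.Proj
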