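import Pool.Agent.Helper7.Proj.Packets

/-!
# Bounds for the abstract system `Sys`
-/

namespace Pool.Agent.Helper7.Proj

open MeasureTheory Set Real

/-- comparison lemma for `y' = -t y + r`. -/
lemma cmp {y S y' S' : ℝ → ℝ} {t0 : ℝ}
    (hyc : ContinuousOn y (Ici t0)) (hSc : ContinuousOn S (Ici t0))
    (hy : ∀ t, t0 < t → HasDerivAt y (y' t) t) (hS : ∀ t, t0 < t → HasDerivAt S (S' t) t)
    (h : ∀ t, t0 < t → y' t + t * y t ≤ S' t + t * S t) (h0 : y t0 ≤ S t0) :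
    ∀ t, t0 ≤ t → y t ≤ S t := by
  have hd : ∀ t, t0 < t → HasDerivAt (fun t => Real.exp (t ^ 2 / 2) * (S t - y t))
      (Real.exp (t ^ 2 / 2) * ((S' t + t * S t) - (y' t + t * y t))) t := by
    intro t ht
    have h1 : HasDerivAt (fun t : ℝ => Real.exp (t ^ 2 / 2)) (Real.exp (t ^ 2 / 2) * t) t := by
      have h2 : HasDerivAt (fun t : ℝ => t ^ 2 / 2) t t := by
        have := (hasDerivAt_pow 2 t).div_const 2
        simpa using this
      exact h2.exp
    have h3 := h1.fun_mul ((hS t ht).fun_sub (hy t ht))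
    refine h3.congr_deriv ?_
    ring
  have hmono : MonotoneOn (fun t => Real.exp (t ^ 2 / 2) * (S t - y t)) (Ici t0) := by
    apply monotoneOn_of_deriv_nonneg (convex_Ici t0)
    · exact ContinuousOn.mul (by fun_prop) (hSc.sub hyc)
    · intro t ht
      rw [interior_Ici] at ht
      exact (hd t ht).differentiableAt.differentiableWithinAt
    · intro t ht
      rw [interior_Ici] at ht
      rw [(hd t ht).deriv]
      exact mul_nonneg (Real.exp_pos _).le (by linarith [h t ht])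
  intro t ht
  have h1 := hmono self_mem_Ici (mem_Ici.2 ht) ht
  simp only at h1
  have h2 : 0 ≤ Real.exp (t0 ^ 2 / 2) * (S t0 - y t0) :=
    mul_nonneg (Real.exp_pos _).le (by linarith)
  have h3 : 0 ≤ Real.exp (t ^ 2 / 2) * (S t - y t) := le_trans h2 h1
  have h4 := nonneg_of_mul_nonneg_right h3 (Real.exp_pos _)
  linarith

variable {C₀ c₀ δ : ℝ} {Φ G b b' : ℝ → ℝ}

namespace Sys

lemma G_cont (hS : Sys C₀ c₀ δ Φ G b b') : Continuous G :=
  continuous_iff_continuousAt.2 fun t => (hS.G_deriv t).continuousAt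

lemma Φ_cont (hS : Sys C₀ c₀ δ Φ G b b') : Continuous Φ :=
  continuous_iff_continuousAt.2 fun t => (hS.Φ_deriv t).continuousAt

lemma b_nonneg (hS : Sys C₀ c₀ δ Φ G b b') {t : ℝ} (ht : 0 ≤ t) : 0 ≤ b t := by
  rcases ht.eq_or_lt with h | h
  · rw [← h]
    have := hS.b_ge 0 le_rfl zero_le_one
    simpa using this
  · exact (hS.b_pos t h).le

lemma G_nonneg (hS : Sys C₀ c₀ δ Φ G b b') {t : ℝ} (ht : 0 ≤ t) : 0 ≤ G t := by
  have := cmp (y := fun _ => 0) (S := G) (y' := fun _ => 0) (S' := fun t => -t * G t + b t)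
    (t0 := 0) continuousOn_const hS.G_cont.continuousOn (fun t _ => hasDerivAt_const t 0)
    (fun t _ => hS.G_deriv t) (fun t ht => by
      have := hS.b_nonneg ht.le
      linarith) (by simp [hS.G_zero])
  exact this t ht

lemma G_pos (hS : Sys C₀ c₀ δ Φ G b b') {t : ℝ} (ht : 0 < t) : 0 < G t := by
  have hd : ∀ t, HasDerivAt (fun t => Real.exp (t ^ 2 / 2) * G t)
      (Real.exp (t ^ 2 / 2) * b t) t := by
    intro t
    have h1 : HasDerivAt (fun t : ℝ => Real.exp (t ^ 2 / 2)) (Real.exp (t ^ 2 / 2) * t) t := by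
      have h2 : HasDerivAt (fun t : ℝ => t ^ 2 / 2) t t := by
        have := (hasDerivAt_pow 2 t).div_const 2
        simpa using this
      exact h2.exp
    have h3 := h1.fun_mul (hS.G_deriv t)
    refine h3.congr_deriv ?_
    ring
  have hmono : StrictMonoOn (fun t => Real.exp (t ^ 2 / 2) * G t) (Ici 0) := by
    apply strictMonoOn_of_deriv_pos (convex_Ici 0)
    · exact ContinuousOn.mul (by fun_prop) hS.G_cont.continuousOn
    · intro t ht
      rw [interior_Ici] at ht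
      rw [(hd t).deriv]
      exact mul_pos (Real.exp_pos _) (hS.b_pos t ht)
  have h1 := hmono self_mem_Ici (mem_Ici.2 ht.le) ht
  simp only [hS.G_zero, mul_zero] at h1
  exact pos_of_mul_pos_right h1 (Real.exp_pos _).le

lemma G_le_lin (hS : Sys C₀ c₀ δ Φ G b b') (hC : 0 ≤ C₀) {t : ℝ} (ht : 0 ≤ t) :
    G t ≤ C₀ * t := by
  have := cmp (y := G) (S := fun t => C₀ * t) (y' := fun t => -t * G t + b t)
    (S' := fun _ => C₀) (t0 := 0) hS.G_cont.continuousOn (by fun_prop)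
    (fun t _ => hS.G_deriv t) (fun t _ => by
      simpa using (hasDerivAt_id t).const_mul C₀) (fun t ht => by
      have := hS.b_le t ht.le
      have h2 : 0 ≤ t * (C₀ * t) := by positivity
      linarith) (by simp [hS.G_zero])
  exact this t ht

lemma hasDerivAt_inv_const (K t : ℝ) (ht : t ≠ 0) :
    HasDerivAt (fun t : ℝ => K / t) (-K / t ^ 2) t := by
  have := (hasDerivAt_inv ht).const_mul K
  simp only [← div_eq_mul_inv] at this
  refine this.congr_deriv ?_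
  field_simp

lemma sqrt_two_gt_one : (1 : ℝ) < √2 := by
  rw [show (1 : ℝ) = √1 by simp]
  exact Real.sqrt_lt_sqrt (by norm_num) (by norm_num)

/-- general inverse bound from a linear bound -/
lemma inv_bound {y r : ℝ → ℝ} {K : ℝ} (hK : 0 ≤ K) (hyc : Continuous y)
    (hy : ∀ t, HasDerivAt y (-t * y t + r t) t) (hr : ∀ t, 0 ≤ t → r t ≤ K)
    (hlin : ∀ t, 0 ≤ t → y t ≤ K * t) {t : ℝ} (ht : 0 < t) : y t ≤ 2 * K / t := by
  have h2 : (√2 : ℝ) ^ 2 = 2 := Real.sq_sqrt (by norm_num)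
  have h2p : (0 : ℝ) < √2 := by positivity
  rcases le_total t (√2) with h | h
  · refine (hlin t ht.le).trans ?_
    rw [le_div_iff₀ ht]
    have : t * t ≤ 2 := by
      have : t ^ 2 ≤ (√2) ^ 2 := pow_le_pow_left₀ ht.le h 2
      nlinarith
    nlinarith
  · refine cmp (y := y) (S := fun t => 2 * K / t) (y' := fun t => -t * y t + r t)
      (S' := fun t => -(2 * K) / t ^ 2) (t0 := √2) hyc.continuousOn ?_ (fun t _ => hy t)
      (fun t ht => hasDerivAt_inv_const _ _ (h2p.trans ht).ne') ?_ ?_ t h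
    · apply ContinuousOn.div continuousOn_const continuousOn_id
      intro x hx
      exact (h2p.trans_le hx).ne'
    · intro t ht
      have htp : 0 < t := h2p.trans ht
      have ht2 : 2 ≤ t ^ 2 := by
        have : (√2) ^ 2 ≤ t ^ 2 := pow_le_pow_left₀ h2p.le ht.le 2
        linarith
      have h3 : -(2 * K) / t ^ 2 + t * (2 * K / t) = 2 * K - 2 * K / t ^ 2 := by
        field_simp
        ring
      rw [h3]
      have h4 : 2 * K / t ^ 2 ≤ K := by
        rw [div_le_iff₀ (by positivity)]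
        nlinarith
      linarith [hr t htp.le]
    · refine (hlin _ h2p.le).trans ?_
      rw [le_div_iff₀ h2p]
      nlinarith

lemma G_le_inv (hS : Sys C₀ c₀ δ Φ G b b') (hC : 0 ≤ C₀) {t : ℝ} (ht : 0 < t) :
    G t ≤ 2 * C₀ / t :=
  inv_bound hC hS.G_cont hS.G_deriv (fun t ht => hS.b_le t ht)
    (fun _ ht => hS.G_le_lin hC ht) ht

lemma tG_le (hS : Sys C₀ c₀ δ Φ G b b') (hC : 0 ≤ C₀) {t : ℝ} (ht : 0 ≤ t) :
    t * G t ≤ 2 * C₀ := by
  rcases ht.eq_or_lt with h | h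
  · rw [← h]; simp; exact hC
  · have := hS.G_le_inv hC h
    rw [le_div_iff₀ h] at this
    linarith

lemma G_le_const (hS : Sys C₀ c₀ δ Φ G b b') (hC : 0 ≤ C₀) {t : ℝ} (ht : 0 ≤ t) :
    G t ≤ 2 * C₀ := by
  rcases le_total t 1 with h | h
  · have := hS.G_le_lin hC ht
    nlinarith
  · have := hS.G_le_inv hC (by linarith : 0 < t)
    refine this.trans ?_
    rw [div_le_iff₀ (by linarith)]
    nlinarith

/-- `g = (exp(-t²/2) - Φ)/δ`. -/
noncomputable def g (δ : ℝ) (Φ : ℝ → ℝ) (t : ℝ) : ℝ := (Real.exp (-t ^ 2 / 2) - Φ t) / δ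

lemma Φ_eq (Φ : ℝ → ℝ) (hδ : δ ≠ 0) (t : ℝ) : Φ t = Real.exp (-t ^ 2 / 2) - δ * g δ Φ t := by
  unfold g
  field_simp
  ring

lemma hasDerivAt_gauss (t : ℝ) :
    HasDerivAt (fun t : ℝ => Real.exp (-t ^ 2 / 2)) (-t * Real.exp (-t ^ 2 / 2)) t := by
  have h2 : HasDerivAt (fun t : ℝ => -t ^ 2 / 2) (-t) t := by
    have := ((hasDerivAt_pow 2 t).neg).div_const 2
    simpa [neg_div] using this
  have := h2.exp
  convert this using 1
  ring

lemma g_deriv (hS : Sys C₀ c₀ δ Φ G b b') (hδ : δ ≠ 0) (t : ℝ) :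
    HasDerivAt (g δ Φ) (-t * g δ Φ t + t * G t) t := by
  have := ((hasDerivAt_gauss t).fun_sub (hS.Φ_deriv t)).div_const δ
  refine this.congr_deriv ?_
  unfold g
  field_simp
  ring

lemma g_cont (hS : Sys C₀ c₀ δ Φ G b b') (hδ : δ ≠ 0) : Continuous (g δ Φ) :=
  continuous_iff_continuousAt.2 fun t => (hS.g_deriv hδ t).continuousAt

lemma g_zero (hS : Sys C₀ c₀ δ Φ G b b') : g δ Φ 0 = 0 := by
  unfold g
  simp [hS.Φ_zero]

lemma g_nonneg (hS : Sys C₀ c₀ δ Φ G b b') (hδ : δ ≠ 0) {t : ℝ} (ht : 0 ≤ t) :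
    0 ≤ g δ Φ t := by
  have := cmp (y := fun _ => 0) (S := g δ Φ) (y' := fun _ => 0)
    (S' := fun t => -t * g δ Φ t + t * G t)
    (t0 := 0) continuousOn_const (hS.g_cont hδ).continuousOn (fun t _ => hasDerivAt_const t 0)
    (fun t _ => hS.g_deriv hδ t) (fun t ht => by
      have := mul_nonneg ht.le (hS.G_nonneg ht.le)
      linarith) (by simp [hS.g_zero])
  exact this t ht

lemma g_le_lin (hS : Sys C₀ c₀ δ Φ G b b') (hC : 0 ≤ C₀) (hδ : δ ≠ 0) {t : ℝ} (ht : 0 ≤ t) :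
    g δ Φ t ≤ 2 * C₀ * t := by
  have := cmp (y := g δ Φ) (S := fun t => 2 * C₀ * t) (y' := fun t => -t * g δ Φ t + t * G t)
    (S' := fun _ => 2 * C₀) (t0 := 0) (hS.g_cont hδ).continuousOn (by fun_prop)
    (fun t _ => hS.g_deriv hδ t) (fun t _ => by
      simpa using (hasDerivAt_id t).const_mul (2 * C₀)) (fun t ht => by
      have := hS.tG_le hC ht.le
      have h2 : 0 ≤ t * (2 * C₀ * t) := by positivity
      linarith) (by simp [hS.g_zero])
  exact this t ht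

lemma g_le_sq (hS : Sys C₀ c₀ δ Φ G b b') (hC : 0 ≤ C₀) (hδ : δ ≠ 0) {t : ℝ} (ht : 0 ≤ t) :
    g δ Φ t ≤ C₀ * t ^ 3 / 3 := by
  have := cmp (y := g δ Φ) (S := fun t => C₀ * t ^ 3 / 3)
    (y' := fun t => -t * g δ Φ t + t * G t)
    (S' := fun t => C₀ * t ^ 2) (t0 := 0) (hS.g_cont hδ).continuousOn (by fun_prop)
    (fun t _ => hS.g_deriv hδ t) (fun t _ => by
      have := ((hasDerivAt_pow 3 t).const_mul C₀).div_const 3
      refine this.congr_deriv ?_
      push_cast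
      ring) (fun t ht => by
      have := mul_le_mul_of_nonneg_left (hS.G_le_lin hC ht.le) ht.le
      have h2 : 0 ≤ t * (C₀ * t ^ 3 / 3) := by positivity
      nlinarith) (by simp [hS.g_zero])
  exact this t ht

lemma g_le_inv (hS : Sys C₀ c₀ δ Φ G b b') (hC : 0 ≤ C₀) (hδ : δ ≠ 0) {t : ℝ} (ht : 0 < t) :
    g δ Φ t ≤ 4 * C₀ / t := by
  have := inv_bound (K := 2 * C₀) (by positivity) (hS.g_cont hδ) (hS.g_deriv hδ)
    (fun t ht => hS.tG_le hC ht) (fun _ ht => hS.g_le_lin hC hδ ht) ht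
  convert this using 1
  ring

lemma Φ_le_gauss (hS : Sys C₀ c₀ δ Φ G b b') (hδ : 0 < δ) {t : ℝ} (ht : 0 ≤ t) :
    Φ t ≤ Real.exp (-t ^ 2 / 2) := by
  rw [Φ_eq Φ hδ.ne' t]
  have := mul_nonneg hδ.le (hS.g_nonneg hδ.ne' ht)
  linarith

lemma neg_Φ_le (hS : Sys C₀ c₀ δ Φ G b b') (hC : 0 ≤ C₀) (hδ : 0 < δ) {t : ℝ} (ht : 0 < t) :
    -Φ t ≤ 4 * C₀ * δ / t := by
  rw [Φ_eq Φ hδ.ne' t]
  have h1 := mul_le_mul_of_nonneg_left (hS.g_le_inv hC hδ.ne' ht) hδ.le
  have h2 := Real.exp_pos (-t ^ 2 / 2)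
  have h3 : δ * (4 * C₀ / t) = 4 * C₀ * δ / t := by ring
  linarith

lemma gauss_le_of_Φ_nonpos (hS : Sys C₀ c₀ δ Φ G b b') (hC : 0 ≤ C₀) (hδ : 0 < δ) {t : ℝ}
    (ht : 0 < t) (h : Φ t ≤ 0) : Real.exp (-t ^ 2 / 2) ≤ 4 * C₀ * δ / t := by
  have h0 := Φ_eq Φ hδ.ne' t
  have h1 := mul_le_mul_of_nonneg_left (hS.g_le_inv hC hδ.ne' ht) hδ.le
  have h3 : δ * (4 * C₀ / t) = 4 * C₀ * δ / t := by ring
  linarith

lemma abs_Φ_le_of_nonpos (hS : Sys C₀ c₀ δ Φ G b b') (hC : 0 ≤ C₀) (hδ : 0 < δ) {t : ℝ}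
    (ht : 0 < t) (h : Φ t ≤ 0) : |Φ t| ≤ 4 * C₀ * δ / t := by
  rw [abs_of_nonpos h]
  exact hS.neg_Φ_le hC hδ ht

lemma abs_Φ_le (hS : Sys C₀ c₀ δ Φ G b b') (hC : 0 ≤ C₀) (hδ : 0 < δ) {t : ℝ}
    (ht : 0 < t) : |Φ t| ≤ Real.exp (-t ^ 2 / 2) + 4 * C₀ * δ / t := by
  have h1 := hS.neg_Φ_le hC hδ ht
  have h2 := hS.Φ_le_gauss hδ ht.le
  have h3 := Real.exp_pos (-t ^ 2 / 2)
  have h4 : 0 ≤ 4 * C₀ * δ / t := by positivity
  rw [abs_le]
  constructor <;> linarith

lemma gauss_le_inv {t : ℝ} (ht : 0 < t) : Real.exp (-t ^ 2 / 2) ≤ 1 / t := by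
  rw [neg_div, Real.exp_neg, ← one_div]
  apply one_div_le_one_div_of_le ht
  have := Real.add_one_le_exp (t ^ 2 / 2)
  nlinarith [sq_nonneg (t - 1)]

lemma abs_Φ_le_inv (hS : Sys C₀ c₀ δ Φ G b b') (hC : 0 ≤ C₀) (hδ : 0 < δ)
    (hδ1 : 4 * C₀ * δ ≤ 1) {t : ℝ} (ht : 0 < t) : |Φ t| ≤ 2 / t := by
  refine (hS.abs_Φ_le hC hδ ht).trans ?_
  have h1 := gauss_le_inv ht
  have h2 : 4 * C₀ * δ / t ≤ 1 / t := div_le_div_of_nonneg_right hδ1 ht.le
  have h3 : 2 / t = 1 / t + 1 / t := by ring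
  linarith

lemma abs_Φ_le_one (hS : Sys C₀ c₀ δ Φ G b b') (hC : 0 ≤ C₀) (hδ : 0 < δ)
    (hδ1 : 4 * C₀ * δ ≤ 1) {t : ℝ} (ht : 0 ≤ t) : |Φ t| ≤ 1 := by
  rw [abs_le]
  constructor
  · rw [Φ_eq Φ hδ.ne' t]
    have h2 := Real.exp_pos (-t ^ 2 / 2)
    have h3 : δ * g δ Φ t ≤ 1 := by
      rcases le_total t 1 with h | h
      · have := hS.g_le_lin hC hδ.ne' ht
        have h4 := hS.g_nonneg hδ.ne' ht
        have h5 : g δ Φ t ≤ 2 * C₀ := this.trans (by nlinarith)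
        nlinarith
      · have := hS.g_le_inv hC hδ.ne' (by linarith : 0 < t)
        have h5 : g δ Φ t ≤ 4 * C₀ := this.trans (by
          rw [div_le_iff₀ (by linarith)]
          nlinarith)
        nlinarith
    linarith
  · refine (hS.Φ_le_gauss hδ ht).trans ?_
    apply Real.exp_le_one_iff.2
    have := sq_nonneg t
    linarith

/-- sign structure: `exp(t²/2) Φ` is strictly decreasing. -/
lemma P_anti (hS : Sys C₀ c₀ δ Φ G b b') (hδ : 0 < δ) :
    StrictAntiOn (fun t => Real.exp (t ^ 2 / 2) * Φ t) (Ici 0) := by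
  have hd : ∀ t, HasDerivAt (fun t => Real.exp (t ^ 2 / 2) * Φ t)
      (-(Real.exp (t ^ 2 / 2) * (t * δ * G t))) t := by
    intro t
    have h1 : HasDerivAt (fun t : ℝ => Real.exp (t ^ 2 / 2)) (Real.exp (t ^ 2 / 2) * t) t := by
      have h2 : HasDerivAt (fun t : ℝ => t ^ 2 / 2) t t := by
        have := (hasDerivAt_pow 2 t).div_const 2
        simpa using this
      exact h2.exp
    have h3 := h1.fun_mul (hS.Φ_deriv t)
    refine h3.congr_deriv ?_
    ring
  apply strictAntiOn_of_deriv_neg (convex_Ici 0)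
  · exact ContinuousOn.mul (by fun_prop) hS.Φ_cont.continuousOn
  · intro t ht
    rw [interior_Ici] at ht
    rw [(hd t).deriv]
    have ht' : 0 < t := ht
    have := hS.G_pos ht'
    have : 0 < Real.exp (t ^ 2 / 2) * (t * δ * G t) := by positivity
    linarith

lemma Φ_pos_of_le (hS : Sys C₀ c₀ δ Φ G b b') (hδ : 0 < δ) {s t : ℝ} (hs : 0 ≤ s)
    (hst : s ≤ t) (h : 0 < Φ t) : 0 < Φ s := by
  have h1 := (hS.P_anti hδ).antitoneOn (mem_Ici.2 hs) (mem_Ici.2 (hs.trans hst)) hst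
  have h2 : 0 < Real.exp (t ^ 2 / 2) * Φ t := mul_pos (Real.exp_pos _) h
  exact pos_of_mul_pos_right (h2.trans_le h1) (Real.exp_pos _).le

lemma Φ_nonpos_of_le (hS : Sys C₀ c₀ δ Φ G b b') (hδ : 0 < δ) {s t : ℝ} (hs : 0 ≤ s)
    (hst : s ≤ t) (h : Φ s ≤ 0) : Φ t ≤ 0 := by
  by_contra h'
  push Not at h'
  exact absurd (hS.Φ_pos_of_le hδ hs hst h') (not_lt.2 h)

/-! ### decay of `G'` and `Φ'` -/

/-- `E = G' = b - t G`. -/
lemma abs_E_le_const (hS : Sys C₀ c₀ δ Φ G b b') (hC : 0 ≤ C₀) {t : ℝ} (ht : 0 ≤ t) :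
    |b t - t * G t| ≤ 2 * C₀ := by
  have h1 := hS.tG_le hC ht
  have h2 := hS.b_le t ht
  have h3 := hS.b_nonneg ht
  have h4 := mul_nonneg ht (hS.G_nonneg ht)
  rw [abs_le]
  constructor <;> linarith

lemma E_deriv (hS : Sys C₀ c₀ δ Φ G b b') {t : ℝ} (ht : 0 < t) :
    HasDerivAt (fun t => b t - t * G t) (b' t - G t - t * (b t - t * G t)) t := by
  have h1 := (hS.b_deriv t ht).fun_sub ((hasDerivAt_id t).fun_mul (hS.G_deriv t))
  refine h1.congr_deriv ?_
  simp only [id]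
  ring

lemma abs_bG (hS : Sys C₀ c₀ δ Φ G b b') (hC : 0 ≤ C₀) {t : ℝ} (ht : 0 < t) :
    |b' t - G t| ≤ 3 * C₀ / t := by
  have h1 := hS.b'_le t ht
  have h2 := hS.G_le_inv hC ht
  have h3 := hS.G_nonneg ht.le
  have h4 : 3 * C₀ / t = C₀ / t + 2 * C₀ / t := by ring
  have h5 := abs_le.1 h1
  rw [h4, abs_le]
  constructor <;> linarith

lemma abs_E_le (hS : Sys C₀ c₀ δ Φ G b b') (hC : 0 ≤ C₀) {t : ℝ} (ht : 0 < t) :
    |b t - t * G t| ≤ 8 * C₀ / t ^ 2 := by
  rcases le_total t 2 with h | h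
  · refine (hS.abs_E_le_const hC ht.le).trans ?_
    rw [le_div_iff₀ (by positivity)]
    have : t ^ 2 ≤ 4 := by nlinarith
    nlinarith
  · have hScont : ContinuousOn (fun t : ℝ => 8 * C₀ / t ^ 2) (Ici 2) := by
      apply ContinuousOn.div continuousOn_const (by fun_prop)
      intro x hx
      have : (0 : ℝ) < x := by linarith [mem_Ici.1 hx]
      positivity
    have hSd : ∀ t : ℝ, 2 < t → HasDerivAt (fun t : ℝ => 8 * C₀ / t ^ 2) (-16 * C₀ / t ^ 3) t := by
      intro t ht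
      have htp : t ≠ 0 := by linarith
      have h1 := ((hasDerivAt_pow 2 t).inv (pow_ne_zero 2 htp)).const_mul (8 * C₀)
      have h2 : (fun y : ℝ => 8 * C₀ * (fun x : ℝ => x ^ 2)⁻¹ y) = fun t : ℝ => 8 * C₀ / t ^ 2 := by
        funext y
        simp [div_eq_mul_inv]
      rw [h2] at h1
      refine h1.congr_deriv ?_
      push_cast
      field_simp
      ring
    have hineq : ∀ t : ℝ, 2 < t → 3 * C₀ / t ≤ -16 * C₀ / t ^ 3 + t * (8 * C₀ / t ^ 2) := by
      intro t ht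
      have htp : 0 < t := by linarith
      have h1 : -16 * C₀ / t ^ 3 + t * (8 * C₀ / t ^ 2) - 3 * C₀ / t
          = C₀ * (5 * t ^ 2 - 16) / t ^ 3 := by
        field_simp
        ring
      have h2 : 0 ≤ C₀ * (5 * t ^ 2 - 16) / t ^ 3 := by
        have : 0 ≤ 5 * t ^ 2 - 16 := by nlinarith
        positivity
      linarith
    have hEc : Continuous (fun t => b t - t * G t) :=
      hS.b_cont.sub (continuous_id.mul hS.G_cont)
    rw [abs_le]
    constructor
    · have := cmp (y := fun t => -(b t - t * G t)) (S := fun t => 8 * C₀ / t ^ 2)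
        (y' := fun t => -(b' t - G t - t * (b t - t * G t))) (S' := fun t => -16 * C₀ / t ^ 3)
        (t0 := 2) hEc.neg.continuousOn hScont
        (fun t ht => (hS.E_deriv (by linarith)).fun_neg) hSd (fun t ht => by
          have h1 := abs_le.1 (hS.abs_bG hC (by linarith : (0:ℝ) < t))
          have h2 := hineq t ht
          linarith [h1.1]) (by
          have := abs_le.1 (hS.abs_E_le_const hC (t := 2) (by norm_num))
          have h3 : 8 * C₀ / (2:ℝ) ^ 2 = 2 * C₀ := by ring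
          rw [h3]
          linarith [this.1]) t h
      linarith
    · exact cmp (y := fun t => b t - t * G t) (S := fun t => 8 * C₀ / t ^ 2)
        (y' := fun t => b' t - G t - t * (b t - t * G t)) (S' := fun t => -16 * C₀ / t ^ 3)
        (t0 := 2) hEc.continuousOn hScont
        (fun t ht => hS.E_deriv (by linarith)) hSd (fun t ht => by
          have h1 := abs_le.1 (hS.abs_bG hC (by linarith : (0:ℝ) < t))
          have h2 := hineq t ht
          linarith [h1.2]) (by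
          have := abs_le.1 (hS.abs_E_le_const hC (t := 2) (by norm_num))
          have h3 : 8 * C₀ / (2:ℝ) ^ 2 = 2 * C₀ := by ring
          rw [h3]
          exact this.2) t h

lemma h_deriv (hS : Sys C₀ c₀ δ Φ G b b') (hδ : δ ≠ 0) (t : ℝ) :
    HasDerivAt (fun t => G t - g δ Φ t)
      (-t * (G t - g δ Φ t) + (b t - t * G t)) t := by
  have h1 := (hS.G_deriv t).fun_sub (hS.g_deriv hδ t)
  refine h1.congr_deriv ?_
  ring

lemma abs_h_le_inv (hS : Sys C₀ c₀ δ Φ G b b') (hC : 0 ≤ C₀) (hδ : δ ≠ 0) {t : ℝ} (ht : 0 < t) :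
    |G t - g δ Φ t| ≤ 6 * C₀ / t := by
  have h1 := hS.G_le_inv hC ht
  have h2 := hS.g_le_inv hC hδ ht
  have h3 := hS.G_nonneg ht.le
  have h4 := hS.g_nonneg hδ ht.le
  have h5 : 6 * C₀ / t = 2 * C₀ / t + 4 * C₀ / t := by ring
  have h6 : 0 ≤ 2 * C₀ / t := by positivity
  have h7 : 0 ≤ 4 * C₀ / t := by positivity
  rw [h5, abs_le]
  constructor <;> linarith

lemma abs_h_le (hS : Sys C₀ c₀ δ Φ G b b') (hC : 0 ≤ C₀) (hδ : δ ≠ 0) {t : ℝ} (ht : 0 < t) :
    |G t - g δ Φ t| ≤ 54 * C₀ / t ^ 3 := by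
  rcases le_total t 3 with h | h
  · refine (hS.abs_h_le_inv hC hδ ht).trans ?_
    rw [div_le_div_iff₀ ht (by positivity)]
    have : t ^ 2 ≤ 9 := by nlinarith
    have h3 : 6 * C₀ * t ^ 3 = (6 * C₀ * t) * t ^ 2 := by ring
    have h4 : 54 * C₀ * t = (6 * C₀ * t) * 9 := by ring
    rw [h3, h4]
    exact mul_le_mul_of_nonneg_left this (by positivity)
  · have hScont : ContinuousOn (fun t : ℝ => 54 * C₀ / t ^ 3) (Ici 3) := by
      apply ContinuousOn.div continuousOn_const (by fun_prop)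
      intro x hx
      have : (0 : ℝ) < x := by linarith [mem_Ici.1 hx]
      positivity
    have hSd : ∀ t : ℝ, 3 < t → HasDerivAt (fun t : ℝ => 54 * C₀ / t ^ 3)
        (-162 * C₀ / t ^ 4) t := by
      intro t ht
      have htp : t ≠ 0 := by linarith
      have h1 := ((hasDerivAt_pow 3 t).inv (pow_ne_zero 3 htp)).const_mul (54 * C₀)
      have h2 : (fun y : ℝ => 54 * C₀ * (fun x : ℝ => x ^ 3)⁻¹ y)
          = fun t : ℝ => 54 * C₀ / t ^ 3 := by
        funext y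
        simp [div_eq_mul_inv]
      rw [h2] at h1
      refine h1.congr_deriv ?_
      push_cast
      field_simp
      ring
    have hineq : ∀ t : ℝ, 3 < t →
        8 * C₀ / t ^ 2 ≤ -162 * C₀ / t ^ 4 + t * (54 * C₀ / t ^ 3) := by
      intro t ht
      have htp : 0 < t := by linarith
      have h1 : -162 * C₀ / t ^ 4 + t * (54 * C₀ / t ^ 3) - 8 * C₀ / t ^ 2
          = C₀ * (46 * t ^ 2 - 162) / t ^ 4 := by
        field_simp
        ring
      have h2 : 0 ≤ C₀ * (46 * t ^ 2 - 162) / t ^ 4 := by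
        have : 0 ≤ 46 * t ^ 2 - 162 := by nlinarith
        positivity
      linarith
    have hEc : Continuous (fun t => G t - g δ Φ t) := hS.G_cont.sub (hS.g_cont hδ)
    have h3 : 54 * C₀ / (3:ℝ) ^ 3 = 2 * C₀ := by ring
    have h3' : 6 * C₀ / (3:ℝ) = 2 * C₀ := by ring
    have h30 := abs_le.1 (hS.abs_h_le_inv hC hδ (t := 3) (by norm_num))
    rw [h3'] at h30
    rw [abs_le]
    constructor
    · have := cmp (y := fun t => -(G t - g δ Φ t)) (S := fun t => 54 * C₀ / t ^ 3)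
        (y' := fun t => -(-t * (G t - g δ Φ t) + (b t - t * G t)))
        (S' := fun t => -162 * C₀ / t ^ 4)
        (t0 := 3) hEc.neg.continuousOn hScont
        (fun t ht => (hS.h_deriv hδ t).fun_neg) hSd (fun t ht => by
          have h1 := abs_le.1 (hS.abs_E_le hC (by linarith : (0:ℝ) < t))
          have h2 := hineq t ht
          linarith [h1.1]) (by
          rw [h3]
          linarith [h30.1]) t h
      linarith
    · exact cmp (y := fun t => G t - g δ Φ t) (S := fun t => 54 * C₀ / t ^ 3)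
        (y' := fun t => -t * (G t - g δ Φ t) + (b t - t * G t))
        (S' := fun t => -162 * C₀ / t ^ 4)
        (t0 := 3) hEc.continuousOn hScont
        (fun t ht => hS.h_deriv hδ t) hSd (fun t ht => by
          have h1 := abs_le.1 (hS.abs_E_le hC (by linarith : (0:ℝ) < t))
          have h2 := hineq t ht
          linarith [h1.2]) (by
          rw [h3]
          exact h30.2) t h

/-- bound for `Φ' = -t(Φ + δ G)` -/
lemma abs_Φ'_le (hS : Sys C₀ c₀ δ Φ G b b') (hC : 0 ≤ C₀) (hδ : 0 < δ) {t : ℝ} (ht : 0 < t) :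
    |(-t * (Φ t + δ * G t))| ≤ t * Real.exp (-t ^ 2 / 2) + 54 * C₀ * δ / t ^ 2 := by
  have h1 : Φ t + δ * G t = Real.exp (-t ^ 2 / 2) + δ * (G t - g δ Φ t) := by
    have := Φ_eq Φ hδ.ne' t
    linarith
  rw [h1, abs_mul, abs_neg, abs_of_pos ht]
  have h2 : |Real.exp (-t ^ 2 / 2) + δ * (G t - g δ Φ t)| ≤
      Real.exp (-t ^ 2 / 2) + δ * (54 * C₀ / t ^ 3) := by
    refine (abs_add_le _ _).trans ?_
    rw [abs_of_pos (Real.exp_pos _), abs_mul, abs_of_pos hδ]
    have := mul_le_mul_of_nonneg_left (hS.abs_h_le hC hδ.ne' ht) hδ.le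
    linarith
  refine (mul_le_mul_of_nonneg_left h2 ht.le).trans ?_
  have h3 : t * (Real.exp (-t ^ 2 / 2) + δ * (54 * C₀ / t ^ 3))
      = t * Real.exp (-t ^ 2 / 2) + 54 * C₀ * δ / t ^ 2 := by
    field_simp
  rw [h3]

end Sys

end Pool.Agent.Helper7.Proj
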