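import Mathlib

/-!
# Minimal hyperplane projections of `B_p^n`, `p` close to `2` (MP_705522_gt): definitions
-/

namespace Pool.Agent.Helper7.Proj

open MeasureTheory Set

/-- The closed unit ball of `ℓ_p^n`, as a subset of Euclidean space. -/
def Bp (p : ℝ) (n : ℕ) : Set (EuclideanSpace ℝ (Fin n)) :=
  {x | ∑ i, |x i| ^ p ≤ 1}

/-- The `(n-1)`-dimensional volume of the orthogonal projection of `B_p^n` onto the hyperplane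
`u^⊥` (Lebesgue measure of the Euclidean space `u^⊥`). -/
noncomputable def projVol (p : ℝ) (n : ℕ) (u : EuclideanSpace ℝ (Fin n)) : ℝ :=
  (volume : Measure (ℝ ∙ u)ᗮ).real ((ℝ ∙ u)ᗮ.orthogonalProjectionOnto '' Bp p n)

/-- Signed power `|x|^(p-1) sgn x`. -/
noncomputable def sg (p x : ℝ) : ℝ := Real.sign x * |x| ^ (p - 1)

/-- `J p u = ∫ |∑ u_i |x_i|^(p-1) sgn x_i| exp(-∑|x_i|^p) dx`. -/
noncomputable def J (p : ℝ) {n : ℕ} (u : Fin n → ℝ) : ℝ :=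
  ∫ x : Fin n → ℝ, |∑ i, u i * sg p (x i)| * Real.exp (-∑ i, |x i| ^ p)

/-- characteristic function of the density `∝ |x|^(q-2) exp(-|x|^q)` -/
noncomputable def phi (q t : ℝ) : ℝ :=
  (∫ x in Ioi (0 : ℝ), Real.cos (t * x) * (x ^ (q - 2) * Real.exp (-x ^ q))) /
    ∫ x in Ioi (0 : ℝ), x ^ (q - 2) * Real.exp (-x ^ q)

/-- characteristic function of the density `∝ exp(-|x|^q)` -/
noncomputable def psi (q t : ℝ) : ℝ :=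
  (∫ x in Ioi (0 : ℝ), Real.cos (t * x) * Real.exp (-x ^ q)) /
    ∫ x in Ioi (0 : ℝ), Real.exp (-x ^ q)

/-- The abstract system: `G' = -t G + b`, `Φ' = -t (Φ + δ G)`, with `0 ≤ b ≤ C₀`, `b ≥ c₀ t` on
`[0,1]`, `|b'| ≤ C₀/t`. -/
structure Sys (C₀ c₀ δ : ℝ) (Φ G b b' : ℝ → ℝ) : Prop where
  b_pos : ∀ t, 0 < t → 0 < b t
  b_le : ∀ t, 0 ≤ t → b t ≤ C₀
  b_ge : ∀ t, 0 ≤ t → t ≤ 1 → c₀ * t ≤ b t
  b_deriv : ∀ t, 0 < t → HasDerivAt b (b' t) t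
  b'_le : ∀ t, 0 < t → |b' t| ≤ C₀ / t
  b_cont : Continuous b
  G_zero : G 0 = 0
  G_deriv : ∀ t, HasDerivAt G (-t * G t + b t) t
  Φ_zero : Φ 0 = 1
  Φ_deriv : ∀ t, HasDerivAt Φ (-t * (Φ t + δ * G t)) t

/-- `W(t) = Φ(√a t) G(√b t) - G(√a t) Φ(√b t)`. -/
noncomputable def Wf (Φ G : ℝ → ℝ) (a b t : ℝ) : ℝ :=
  Φ (√a * t) * G (√b * t) - G (√a * t) * Φ (√b * t)

/-- `F(x) = ∫ (1 - ∏ Φ(√x_i t)) / t² dt`. -/
noncomputable def F {ι : Type*} [Fintype ι] (Φ : ℝ → ℝ) (x : ι → ℝ) : ℝ :=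
  ∫ t in Ioi (0 : ℝ), (1 - ∏ i, Φ (√(x i) * t)) / t ^ 2

end Pool.Agent.Helper7.Proj
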