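import Pool.Agent.Helper7.Proj.Basic

/-!
# Packet A: the key inequality
-/

namespace Pool.Agent.Helper7.Proj

open MeasureTheory Set Real

variable {C₀ c₀ δ : ℝ} {Φ G b b' : ℝ → ℝ}

namespace Sys

lemma Lam_deriv (hS : Sys C₀ c₀ δ Φ G b b') {t : ℝ} (h : Φ t ≠ 0) :
    HasDerivAt (fun t => G t / Φ t) ((b t * Φ t + t * δ * G t ^ 2) / Φ t ^ 2) t := by
  have h1 := (hS.G_deriv t).fun_div (hS.Φ_deriv t) h
  refine h1.congr_deriv ?_
  congr 1
  ring

lemma Lam_mono (hS : Sys C₀ c₀ δ Φ G b b') (hδ : 0 < δ) {s t : ℝ} (hs : 0 ≤ s)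
    (hst : s ≤ t) (h : 0 < Φ t) : G s / Φ s ≤ G t / Φ t := by
  have hpos : ∀ r ∈ Icc 0 t, 0 < Φ r := fun r hr => hS.Φ_pos_of_le hδ hr.1 hr.2 h
  have hmono : MonotoneOn (fun t => G t / Φ t) (Icc 0 t) := by
    apply monotoneOn_of_deriv_nonneg (convex_Icc 0 t)
    · exact ContinuousOn.div hS.G_cont.continuousOn hS.Φ_cont.continuousOn
        (fun r hr => (hpos r hr).ne')
    · intro r hr
      rw [interior_Icc] at hr
      exact (hS.Lam_deriv (hpos r ⟨hr.1.le, hr.2.le⟩).ne').differentiableAt.differentiableWithinAt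
    · intro r hr
      rw [interior_Icc] at hr
      have hp := hpos r ⟨hr.1.le, hr.2.le⟩
      rw [(hS.Lam_deriv hp.ne').deriv]
      have := hS.b_nonneg hr.1.le
      have h0 := hr.1
      positivity
  exact hmono ⟨hs, hst⟩ ⟨hs.trans hst, le_rfl⟩ hst

lemma Lam_quant (hS : Sys C₀ c₀ δ Φ G b b') (hδ : 0 < δ) {s t : ℝ} (hs : 0 ≤ s)
    (hst : s ≤ t) (ht1 : t ≤ 1) (h : 0 < Φ t) :
    c₀ / 2 * (t ^ 2 - s ^ 2) ≤ G t / Φ t - G s / Φ s := by
  have hpos : ∀ r ∈ Icc 0 t, 0 < Φ r := fun r hr => hS.Φ_pos_of_le hδ hr.1 hr.2 h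
  have hd : ∀ r ∈ Icc 0 t, HasDerivAt (fun t => G t / Φ t - c₀ / 2 * t ^ 2)
      ((b r * Φ r + r * δ * G r ^ 2) / Φ r ^ 2 - c₀ * r) r := by
    intro r hr
    have h1 := (hS.Lam_deriv (hpos r hr).ne').fun_sub (((hasDerivAt_pow 2 r)).const_mul (c₀ / 2))
    refine h1.congr_deriv ?_
    push_cast
    ring
  have hmono : MonotoneOn (fun t => G t / Φ t - c₀ / 2 * t ^ 2) (Icc 0 t) := by
    apply monotoneOn_of_deriv_nonneg (convex_Icc 0 t)
    · intro r hr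
      exact (hd r hr).continuousAt.continuousWithinAt
    · intro r hr
      rw [interior_Icc] at hr
      exact (hd r ⟨hr.1.le, hr.2.le⟩).differentiableAt.differentiableWithinAt
    · intro r hr
      rw [interior_Icc] at hr
      have hr' : r ∈ Icc 0 t := ⟨hr.1.le, hr.2.le⟩
      have hp := hpos r hr'
      rw [(hd r hr').deriv]
      have hb := hS.b_nonneg hr.1.le
      have h0 := hr.1
      have hbge := hS.b_ge r hr.1.le (hr.2.le.trans ht1)
      have hΦ1 : Φ r ≤ 1 := (hS.Φ_le_gauss hδ hr.1.le).trans (Real.exp_le_one_iff.2 (by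
        have := sq_nonneg r
        linarith))
      have h2 : b r ≤ (b r * Φ r + r * δ * G r ^ 2) / Φ r ^ 2 := by
        rw [le_div_iff₀ (by positivity)]
        have h3 : b r * Φ r ^ 2 ≤ b r * Φ r := by
          have : Φ r ^ 2 ≤ Φ r := by nlinarith
          exact mul_le_mul_of_nonneg_left this hb
        have h4 : 0 ≤ r * δ * G r ^ 2 := by positivity
        linarith
      linarith
  have := hmono ⟨hs, hst⟩ ⟨hs.trans hst, le_rfl⟩ hst
  simp only at this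
  linarith

lemma W_nonneg (hS : Sys C₀ c₀ δ Φ G b b') (hδ : 0 < δ) {s t : ℝ} (hs : 0 ≤ s)
    (hst : s ≤ t) (h : 0 < Φ s) : 0 ≤ Φ s * G t - G s * Φ t := by
  have hGs := hS.G_nonneg hs
  have hGt := hS.G_nonneg (hs.trans hst)
  rcases le_or_gt (Φ t) 0 with h1 | h1
  · have h2 : G s * Φ t ≤ 0 := mul_nonpos_of_nonneg_of_nonpos hGs h1
    have h3 : 0 ≤ Φ s * G t := mul_nonneg h.le hGt
    linarith
  · have h2 := hS.Lam_mono hδ hs hst h1
    rw [div_le_div_iff₀ h h1] at h2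
    linarith

lemma W_lower (hS : Sys C₀ c₀ δ Φ G b b') (hδ : 0 < δ) {s t : ℝ} (hs : 0 ≤ s)
    (hst : s ≤ t) (ht1 : t ≤ 1) (h : 0 < Φ t) :
    Φ s * Φ t * (c₀ / 2 * (t ^ 2 - s ^ 2)) ≤ Φ s * G t - G s * Φ t := by
  have hs' := hS.Φ_pos_of_le hδ hs hst h
  have h1 := mul_le_mul_of_nonneg_left (hS.Lam_quant hδ hs hst ht1 h) (mul_pos hs' h).le
  have h2 : Φ s * Φ t * (G t / Φ t - G s / Φ s) = Φ s * G t - G s * Φ t := by
    field_simp
  linarith

lemma Φ_ge_exp (hS : Sys C₀ c₀ δ Φ G b b') (hC : 0 ≤ C₀) (hδ : 0 < δ) (hδ1 : C₀ * δ ≤ 1 / 2)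
    {s : ℝ} (hs : 0 ≤ s) (hs1 : s ≤ 1) : Real.exp (-s ^ 2) ≤ Φ s := by
  rw [Φ_eq Φ hδ.ne' s]
  have h1 := mul_le_mul_of_nonneg_left (hS.g_le_sq hC hδ.ne' hs) hδ.le
  have h2 : δ * (C₀ * s ^ 3 / 3) ≤ s ^ 2 / 6 := by
    have h3 : s ^ 3 ≤ s ^ 2 := by nlinarith [sq_nonneg s]
    have h4 : δ * (C₀ * s ^ 3 / 3) = (C₀ * δ) * s ^ 3 / 3 := by ring
    have h5 : 0 ≤ s ^ 3 := by positivity
    rw [h4]
    nlinarith [mul_nonneg hC hδ.le]
  have h3 : Real.exp (-s ^ 2 / 2) - Real.exp (-s ^ 2) ≥ s ^ 2 / 6 := by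
    have h4 : Real.exp (-s ^ 2 / 2) = Real.exp (-s ^ 2) * Real.exp (s ^ 2 / 2) := by
      rw [← Real.exp_add]; congr 1; ring
    rw [h4]
    have h5 := Real.add_one_le_exp (s ^ 2 / 2)
    have h6 : (1 : ℝ) / 3 ≤ Real.exp (-s ^ 2) := by
      have h7 : Real.exp (-1) ≤ Real.exp (-s ^ 2) := Real.exp_le_exp.2 (by nlinarith)
      have h8 : (1 : ℝ) / 3 ≤ Real.exp (-1) := by
        rw [Real.exp_neg, ← one_div]
        exact one_div_le_one_div_of_le (Real.exp_pos _) (by linarith [Real.exp_one_lt_d9])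
      linarith
    have h9 : 0 ≤ s ^ 2 := sq_nonneg s
    nlinarith
  linarith

lemma Φ_pos_le_two (hS : Sys C₀ c₀ δ Φ G b b') (hC : 0 ≤ C₀) (hδ : 0 < δ)
    (hδ1 : C₀ * δ ≤ 1 / 100) {s : ℝ} (hs : 0 ≤ s) (hs1 : s ≤ 2) : 0 < Φ s := by
  rw [Φ_eq Φ hδ.ne' s]
  have h1 := mul_le_mul_of_nonneg_left (hS.g_le_lin hC hδ.ne' hs) hδ.le
  have h2 : Real.exp (-2) ≤ Real.exp (-s ^ 2 / 2) := Real.exp_le_exp.2 (by nlinarith)
  have h3 : (1 : ℝ) / 9 ≤ Real.exp (-2) := by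
    rw [Real.exp_neg, ← one_div]
    apply one_div_le_one_div_of_le (Real.exp_pos _)
    have h4 : Real.exp 2 = Real.exp 1 * Real.exp 1 := by rw [← Real.exp_add]; norm_num
    rw [h4]
    have := Real.exp_one_lt_d9
    have h5 := Real.exp_pos 1
    nlinarith
  have h4 : δ * (2 * C₀ * s) ≤ 1 / 25 := by
    have h5 : δ * (2 * C₀ * s) = 2 * (C₀ * δ) * s := by ring
    rw [h5]
    have := mul_nonneg hC hδ.le
    nlinarith
  linarith

/-- a point where `Φ ≤ 0` is `> 2`. -/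
lemma two_lt_of_nonpos (hS : Sys C₀ c₀ δ Φ G b b') (hC : 0 ≤ C₀) (hδ : 0 < δ)
    (hδ1 : C₀ * δ ≤ 1 / 100) {s : ℝ} (hs : 0 ≤ s) (h : Φ s ≤ 0) : 2 < s := by
  by_contra h'
  push Not at h'
  exact absurd (hS.Φ_pos_le_two hC hδ hδ1 hs h') (not_lt.2 h)

/-- product over the remaining indices -/
lemma rest_le (hS : Sys C₀ c₀ δ Φ G b b') (hC : 0 ≤ C₀) (hδ : 0 < δ)
    (hδ1 : C₀ * δ ≤ 1 / 100) {k : ℕ} (s : Finset (Fin k)) (x : Fin k → ℝ) {B m t : ℝ}
    (hB : 0 < B) (ht : 0 < t) (hmt : 2 ≤ m * t) (hmB : m ^ 2 ≤ 2 * B)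
    (hx : ∀ j ∈ s, 0 ≤ x j ∧ x j ≤ m ^ 2) :
    ∏ j ∈ s, |Φ (√(x j) * t)| ≤ Real.exp (-(∑ j ∈ s, x j) / (4 * B)) := by
  have h1 : ∀ j ∈ s, |Φ (√(x j) * t)| ≤ Real.exp (-(x j) / (4 * B)) := by
    intro j hj
    obtain ⟨hx0, hxm⟩ := hx j hj
    have hs0 : 0 ≤ √(x j) * t := by positivity
    rcases le_or_gt (Φ (√(x j) * t)) 0 with h | h
    · have h2 := hS.two_lt_of_nonpos hC hδ hδ1 hs0 h
      have h3 := hS.abs_Φ_le_of_nonpos hC hδ (by linarith) h
      have h4 : 4 * C₀ * δ / (√(x j) * t) ≤ 1 / 2 := by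
        rw [div_le_iff₀ (by linarith)]
        nlinarith [mul_nonneg hC hδ.le]
      have h5 : (1 : ℝ) / 2 ≤ Real.exp (-(x j) / (4 * B)) := by
        have h6 : -(1 / 2) ≤ -(x j) / (4 * B) := by
          rw [neg_div, neg_le_neg_iff, div_le_iff₀ (by positivity)]
          linarith
        have h7 := Real.exp_le_exp.2 h6
        have h8 := Real.add_one_le_exp (-(1 / 2) : ℝ)
        linarith
      linarith
    · rw [abs_of_pos h]
      refine (hS.Φ_le_gauss hδ hs0).trans (Real.exp_le_exp.2 ?_)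
      rw [mul_pow, Real.sq_sqrt hx0, neg_div, neg_div, neg_le_neg_iff, div_le_div_iff₀
        (by positivity) (by norm_num)]
      have h2 : 4 ≤ m ^ 2 * t ^ 2 := by nlinarith
      have h3 : 4 ≤ 2 * B * t ^ 2 := h2.trans (mul_le_mul_of_nonneg_right hmB (by positivity))
      nlinarith
  refine (Finset.prod_le_prod (fun j _ => abs_nonneg _) h1).trans ?_
  rw [← Real.exp_sum]
  apply Real.exp_le_exp.2
  rw [← Finset.sum_div, Finset.sum_neg_distrib]

/-- Lipschitz bound for `W` when `u = s ≥ 1`. -/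
lemma W_lip (hS : Sys C₀ c₀ δ Φ G b b') (hC : 1 ≤ C₀) (hδ : 0 < δ) {s t : ℝ} (hs : 1 ≤ s)
    (hst : s < t) :
    |Φ s * G t - G s * Φ t| ≤ (t - s) / s *
      (140 * C₀ ^ 2 * (s * Real.exp (-s ^ 2 / 2) + δ / s ^ 2)) := by
  have hC0 : 0 ≤ C₀ := by linarith
  have hs0 : 0 < s := by linarith
  have hts : 0 < t - s := by linarith
  -- G difference
  have hG : |G t - G s| ≤ 8 * C₀ / s ^ 2 * (t - s) := by
    obtain ⟨c, hc, hcd⟩ := exists_hasDerivAt_eq_slope G (fun t => -t * G t + b t) hst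
      hS.G_cont.continuousOn (fun x _ => hS.G_deriv x)
    have h1 : G t - G s = (-c * G c + b c) * (t - s) := by
      rw [hcd]; field_simp
    rw [h1, abs_mul, abs_of_pos hts]
    apply mul_le_mul_of_nonneg_right _ hts.le
    have hc0 : 0 < c := by linarith [hc.1]
    have h2 := hS.abs_E_le hC0 hc0
    have h3 : -c * G c + b c = b c - c * G c := by ring
    rw [h3]
    refine h2.trans ?_
    apply div_le_div_of_nonneg_left (by positivity) (by positivity)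
    exact pow_le_pow_left₀ hs0.le hc.1.le 2
  -- Φ difference
  have hΦ : |Φ t - Φ s| ≤ (s * Real.exp (-s ^ 2 / 2) + 54 * C₀ * δ / s ^ 2) * (t - s) := by
    obtain ⟨c, hc, hcd⟩ := exists_hasDerivAt_eq_slope Φ (fun t => -t * (Φ t + δ * G t)) hst
      hS.Φ_cont.continuousOn (fun x _ => hS.Φ_deriv x)
    have h1 : Φ t - Φ s = (-c * (Φ c + δ * G c)) * (t - s) := by
      rw [hcd]; field_simp
    rw [h1, abs_mul, abs_of_pos hts]
    apply mul_le_mul_of_nonneg_right _ hts.le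
    have hc0 : 0 < c := by linarith [hc.1]
    refine (hS.abs_Φ'_le hC0 hδ hc0).trans ?_
    apply add_le_add
    · -- x exp(-x²/2) decreasing for x ≥ 1
      have hanti : AntitoneOn (fun x : ℝ => x * Real.exp (-x ^ 2 / 2)) (Ici 1) := by
        have hd : ∀ x : ℝ, HasDerivAt (fun x : ℝ => x * Real.exp (-x ^ 2 / 2))
            ((1 - x ^ 2) * Real.exp (-x ^ 2 / 2)) x := by
          intro x
          have := (hasDerivAt_id x).fun_mul (hasDerivAt_gauss x)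
          refine this.congr_deriv ?_
          simp only [id]
          ring
        apply antitoneOn_of_deriv_nonpos (convex_Ici 1)
        · intro x _
          exact (hd x).continuousAt.continuousWithinAt
        · intro x _
          exact (hd x).differentiableAt.differentiableWithinAt
        · intro x hx
          rw [interior_Ici] at hx
          rw [(hd x).deriv]
          have hx1 : 1 < x := hx
          exact mul_nonpos_of_nonpos_of_nonneg (by nlinarith) (Real.exp_pos _).le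
      exact hanti (mem_Ici.2 hs) (mem_Ici.2 (hs.trans hc.1.le)) hc.1.le
    · apply div_le_div_of_nonneg_left (by positivity) (by positivity)
      exact pow_le_pow_left₀ hs0.le hc.1.le 2
  have hΦs := hS.abs_Φ_le hC0 hδ hs0
  have hGs : |G s| ≤ 2 * C₀ / s := by
    rw [abs_of_nonneg (hS.G_nonneg hs0.le)]
    exact hS.G_le_inv hC0 hs0
  have h1 : Φ s * G t - G s * Φ t = Φ s * (G t - G s) - G s * (Φ t - Φ s) := by ring
  rw [h1]
  refine (abs_sub _ _).trans ?_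
  rw [abs_mul, abs_mul]
  have h2 : |Φ s| * |G t - G s| ≤ (Real.exp (-s ^ 2 / 2) + 4 * C₀ * δ / s) *
      (8 * C₀ / s ^ 2 * (t - s)) :=
    mul_le_mul hΦs hG (abs_nonneg _) (by positivity)
  have h3 : |G s| * |Φ t - Φ s| ≤ (2 * C₀ / s) *
      ((s * Real.exp (-s ^ 2 / 2) + 54 * C₀ * δ / s ^ 2) * (t - s)) :=
    mul_le_mul hGs hΦ (abs_nonneg _) (by positivity)
  refine (add_le_add h2 h3).trans ?_
  set e := Real.exp (-s ^ 2 / 2) with he
  have he0 : 0 < e := Real.exp_pos _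
  have h4 : (e + 4 * C₀ * δ / s) * (8 * C₀ / s ^ 2 * (t - s)) +
      (2 * C₀ / s) * ((s * e + 54 * C₀ * δ / s ^ 2) * (t - s)) =
      (t - s) / s * (8 * C₀ * (e / s) + 32 * C₀ ^ 2 * (δ / s ^ 2) + 2 * C₀ * (s * e) +
        108 * C₀ ^ 2 * (δ / s ^ 2)) := by
    field_simp
    ring
  rw [h4]
  apply mul_le_mul_of_nonneg_left _ (by positivity)
  have h5 : e / s ≤ s * e := by
    rw [div_le_iff₀ hs0]
    have : 1 ≤ s * s := by nlinarith
    nlinarith
  have h6 : 8 * C₀ * (e / s) ≤ 8 * C₀ ^ 2 * (s * e) := by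
    have : C₀ ≤ C₀ ^ 2 := by nlinarith
    have h7 : 0 ≤ s * e := by positivity
    have h8 : 8 * C₀ * (e / s) ≤ 8 * C₀ * (s * e) := mul_le_mul_of_nonneg_left h5 (by positivity)
    nlinarith
  have h7 : 2 * C₀ * (s * e) ≤ 2 * C₀ ^ 2 * (s * e) := by
    have : C₀ ≤ C₀ ^ 2 := by nlinarith
    have h7 : 0 ≤ s * e := by positivity
    nlinarith
  have h8 : 0 ≤ C₀ ^ 2 * (s * e) := by positivity
  nlinarith

lemma gauss_le_inv_sq {u : ℝ} (hu : 0 < u) : Real.exp (-u ^ 2 / 2) ≤ 2 / u ^ 2 := by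
  rw [neg_div, Real.exp_neg, ← one_div, div_le_div_iff₀ (Real.exp_pos _) (by positivity)]
  have := Real.add_one_le_exp (u ^ 2 / 2)
  nlinarith

lemma gauss4_le {u : ℝ} (hu : 0 < u) : Real.exp (-u ^ 2 / 4) ≤ 32 / u ^ 4 := by
  rw [neg_div, Real.exp_neg, ← one_div, div_le_div_iff₀ (Real.exp_pos _) (by positivity)]
  have h1 := Real.quadratic_le_exp_of_nonneg (x := u ^ 2 / 4) (by positivity)
  nlinarith [sq_nonneg (u ^ 2)]

end Sys

/-- final integral estimate -/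
lemma final {H : ℝ → ℝ} {T c K : ℝ} (hT : 1 ≤ T)
    (hH : IntegrableOn H (Ioi 0))
    (h1 : ∀ t ∈ Ioc (0 : ℝ) 1, c * t ^ 2 ≤ H t) (h2 : ∀ t ∈ Ioc 1 T, 0 ≤ H t)
    (h3 : ∀ t ∈ Ioi T, -(K / t ^ 2) ≤ H t) (h4 : K / T < c / 3) :
    0 < ∫ t in Ioi (0 : ℝ), H t := by
  have hT0 : 0 < T := by linarith
  have e1 : Ioi (0 : ℝ) = Ioc 0 1 ∪ Ioi 1 := (Ioc_union_Ioi_eq_Ioi (by norm_num)).symm
  have e2 : Ioi (1 : ℝ) = Ioc 1 T ∪ Ioi T := (Ioc_union_Ioi_eq_Ioi hT).symm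
  have hH1 : IntegrableOn H (Ioc 0 1) := hH.mono_set (fun t ht => ht.1)
  have hH2 : IntegrableOn H (Ioi 1) := hH.mono_set (Ioi_subset_Ioi (by norm_num))
  have hH3 : IntegrableOn H (Ioc 1 T) := hH2.mono_set (fun t ht => ht.1)
  have hH4 : IntegrableOn H (Ioi T) := hH2.mono_set (Ioi_subset_Ioi hT)
  rw [e1, setIntegral_union (Ioc_disjoint_Ioi le_rfl) measurableSet_Ioi hH1 hH2, e2,
    setIntegral_union (Ioc_disjoint_Ioi le_rfl) measurableSet_Ioi hH3 hH4]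
  have i1 : c / 3 ≤ ∫ t in Ioc (0 : ℝ) 1, H t := by
    have h5 : ∫ t in Ioc (0 : ℝ) 1, c * t ^ 2 = c / 3 := by
      rw [← intervalIntegral.integral_of_le (by norm_num), intervalIntegral.integral_const_mul,
        integral_pow]
      norm_num
      ring
    rw [← h5]
    apply setIntegral_mono_on _ hH1 measurableSet_Ioc h1
    exact (by fun_prop : Continuous fun t : ℝ => c * t ^ 2).integrableOn_Ioc
  have i2 : 0 ≤ ∫ t in Ioc 1 T, H t := setIntegral_nonneg measurableSet_Ioc h2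
  have hKint : IntegrableOn (fun t : ℝ => -(K / t ^ 2)) (Ioi T) := by
    have h6 := (integrableOn_Ioi_rpow_of_lt (by norm_num : (-2 : ℝ) < -1) hT0).const_mul (-K)
    refine IntegrableOn.congr_fun (f := fun t : ℝ => -K * t ^ (-2 : ℝ)) h6 (fun t ht => ?_)
      measurableSet_Ioi
    have : 0 < t := hT0.trans ht
    simp only
    rw [Real.rpow_neg this.le, show (2 : ℝ) = ((2 : ℕ) : ℝ) by norm_num, Real.rpow_natCast]
    field_simp
  have i3 : -(K / T) ≤ ∫ t in Ioi T, H t := by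
    have h5 : ∫ t in Ioi T, -(K / t ^ 2) = -(K / T) := by
      have h6 : ∫ t in Ioi T, -(K / t ^ 2) = ∫ t in Ioi T, -K * t ^ (-2 : ℝ) := by
        apply setIntegral_congr_fun measurableSet_Ioi
        intro t ht
        have : 0 < t := hT0.trans ht
        simp only
        rw [Real.rpow_neg this.le, show (2 : ℝ) = ((2 : ℕ) : ℝ) by norm_num, Real.rpow_natCast]
        field_simp
      rw [h6, integral_const_mul, integral_Ioi_rpow_of_lt (by norm_num) hT0]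
      rw [show (-2 : ℝ) + 1 = -1 by norm_num, Real.rpow_neg_one]
      field_simp
    rw [← h5]
    exact setIntegral_mono_on hKint hH4 measurableSet_Ioi h3
  linarith

namespace Sys

variable {a β : ℝ}

/-- measurability/integrability of `W(t) R(t)` -/
lemma H_integrable (hS : Sys C₀ c₀ δ Φ G b b') (hC : 1 ≤ C₀) (hδ : 0 < δ)
    (hδ1 : C₀ * δ ≤ 1 / 100) {k : ℕ} (s : Finset (Fin k)) (x : Fin k → ℝ) {a B : ℝ}
    (ha : 0 < a) (hB : 0 < B) :
    IntegrableOn (fun t => Wf Φ G a B t * ∏ j ∈ s, Φ (√(x j) * t)) (Ioi 0) := by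
  have hC0 : 0 ≤ C₀ := by linarith
  have h4 : 4 * C₀ * δ ≤ 1 := by linarith
  have hcont : Continuous (fun t => Wf Φ G a B t * ∏ j ∈ s, Φ (√(x j) * t)) := by
    have h1 := hS.Φ_cont
    have h2 := hS.G_cont
    unfold Wf
    fun_prop
  have hsa : 0 < √a := Real.sqrt_pos.2 ha
  have hsB : 0 < √B := Real.sqrt_pos.2 hB
  have e1 : Ioi (0 : ℝ) = Ioc 0 1 ∪ Ioi 1 := (Ioc_union_Ioi_eq_Ioi (by norm_num)).symm
  rw [e1]
  apply IntegrableOn.union hcont.integrableOn_Ioc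
  have hdom : IntegrableOn (fun t : ℝ => 8 * C₀ / (√a * √B) * t ^ (-2 : ℝ)) (Ioi 1) :=
    (integrableOn_Ioi_rpow_of_lt (by norm_num : (-2 : ℝ) < -1) zero_lt_one).const_mul _
  refine Integrable.mono' hdom hcont.aestronglyMeasurable ?_
  rw [ae_restrict_iff' measurableSet_Ioi]
  refine Filter.Eventually.of_forall fun t ht => ?_
  have ht0 : (0 : ℝ) < t := zero_lt_one.trans ht
  have hprod : |∏ j ∈ s, Φ (√(x j) * t)| ≤ 1 := by
    rw [Finset.abs_prod]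
    apply Finset.prod_le_one (fun j _ => abs_nonneg _)
    intro j _
    exact hS.abs_Φ_le_one hC0 hδ h4 (by positivity)
  have hW : |Wf Φ G a B t| ≤ 8 * C₀ / (√a * √B) * t ^ (-2 : ℝ) := by
    unfold Wf
    refine (abs_sub _ _).trans ?_
    rw [abs_mul, abs_mul]
    have h1 := hS.abs_Φ_le_inv hC0 hδ h4 (mul_pos hsa ht0)
    have h2 := hS.abs_Φ_le_inv hC0 hδ h4 (mul_pos hsB ht0)
    have h3 : |G (√a * t)| ≤ 2 * C₀ / (√a * t) := by
      rw [abs_of_nonneg (hS.G_nonneg (by positivity))]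
      exact hS.G_le_inv hC0 (mul_pos hsa ht0)
    have h4 : |G (√B * t)| ≤ 2 * C₀ / (√B * t) := by
      rw [abs_of_nonneg (hS.G_nonneg (by positivity))]
      exact hS.G_le_inv hC0 (mul_pos hsB ht0)
    have h5 := mul_le_mul h1 h4 (abs_nonneg _) (by positivity)
    have h6 := mul_le_mul h3 h2 (abs_nonneg _) (by positivity)
    refine (add_le_add h5 h6).trans (le_of_eq ?_)
    rw [Real.rpow_neg ht0.le, show (2 : ℝ) = ((2 : ℕ) : ℝ) by norm_num, Real.rpow_natCast]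
    field_simp
    norm_num
  rw [norm_mul, Real.norm_eq_abs, Real.norm_eq_abs]
  calc |Wf Φ G a B t| * |∏ j ∈ s, Φ (√(x j) * t)| ≤ |Wf Φ G a B t| * 1 :=
        mul_le_mul_of_nonneg_left hprod (abs_nonneg _)
    _ = |Wf Φ G a B t| := mul_one _
    _ ≤ _ := hW

/-- The lower bound on `(0,1]`. -/
lemma H_lower (hS : Sys C₀ c₀ δ Φ G b b') (hC : 1 ≤ C₀) (hc : 0 < c₀) (hδ : 0 < δ)
    (hδ1 : C₀ * δ ≤ 1 / 100) {k : ℕ} (s : Finset (Fin k)) (x : Fin k → ℝ) {a B : ℝ}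
    (ha : 0 < a) (haB : a < B) (hx : ∀ j ∈ s, 0 ≤ x j) (hsum : a + B + ∑ j ∈ s, x j = 1)
    {t : ℝ} (ht : t ∈ Ioc (0 : ℝ) 1) :
    (c₀ / 2 * (B - a) * Real.exp (-1)) * t ^ 2 ≤
      Wf Φ G a B t * ∏ j ∈ s, Φ (√(x j) * t) := by
  have hC0 : 0 ≤ C₀ := by linarith
  have hB : 0 < B := by linarith
  have ht0 := ht.1
  have ht1 := ht.2
  have hsum0 : 0 ≤ ∑ j ∈ s, x j := Finset.sum_nonneg hx
  have hB1 : B ≤ 1 := by linarith
  have ha1 : a ≤ 1 := by linarith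
  have key : ∀ y, 0 ≤ y → y ≤ 1 → Real.exp (-(y * t ^ 2)) ≤ Φ (√y * t) := by
    intro y hy hy1
    have h1 : 0 ≤ √y * t := by positivity
    have h2 : √y * t ≤ 1 := by
      have : √y ≤ 1 := Real.sqrt_le_one.2 hy1
      nlinarith [Real.sqrt_nonneg y]
    have h3 := hS.Φ_ge_exp hC0 hδ (by linarith) h1 h2
    rwa [mul_pow, Real.sq_sqrt hy] at h3
  have hxle : ∀ j ∈ s, x j ≤ 1 := by
    intro j hj
    have := Finset.single_le_sum hx hj
    linarith
  have hR : Real.exp (-((∑ j ∈ s, x j) * t ^ 2)) ≤ ∏ j ∈ s, Φ (√(x j) * t) := by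
    have h1 : Real.exp (-((∑ j ∈ s, x j) * t ^ 2)) = ∏ j ∈ s, Real.exp (-(x j * t ^ 2)) := by
      rw [← Real.exp_sum, Finset.sum_neg_distrib, Finset.sum_mul]
    rw [h1]
    exact Finset.prod_le_prod (fun j _ => (Real.exp_pos _).le)
      (fun j hj => key _ (hx j hj) (hxle j hj))
  have hsqrt : √a ≤ √B := Real.sqrt_le_sqrt haB.le
  have hBt : √B * t ≤ 1 := by
    have : √B ≤ 1 := Real.sqrt_le_one.2 hB1
    nlinarith [Real.sqrt_nonneg B]
  have hΦB : 0 < Φ (√B * t) := (Real.exp_pos _).trans_le (key B hB.le hB1)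
  have hW := hS.W_lower hδ (s := √a * t) (t := √B * t) (by positivity)
    (mul_le_mul_of_nonneg_right hsqrt ht0.le) hBt hΦB
  have hsq : (√B * t) ^ 2 - (√a * t) ^ 2 = (B - a) * t ^ 2 := by
    rw [mul_pow, mul_pow, Real.sq_sqrt hB.le, Real.sq_sqrt ha.le]
    ring
  rw [hsq] at hW
  have ha' := key a ha.le ha1
  have hB' := key B hB.le hB1
  have hprod : Real.exp (-(a * t ^ 2)) * Real.exp (-(B * t ^ 2)) ≤
      Φ (√a * t) * Φ (√B * t) := mul_le_mul ha' hB' (Real.exp_pos _).le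
        ((Real.exp_pos _).le.trans ha')
  have hq : 0 ≤ c₀ / 2 * ((B - a) * t ^ 2) := by
    have : 0 < B - a := by linarith
    positivity
  have hW2 : Real.exp (-(a * t ^ 2)) * Real.exp (-(B * t ^ 2)) * (c₀ / 2 * ((B - a) * t ^ 2))
      ≤ Wf Φ G a B t := (mul_le_mul_of_nonneg_right hprod hq).trans hW
  have hfin := mul_le_mul hW2 hR (Real.exp_pos _).le
    (le_trans (by positivity) hW2)
  refine le_trans ?_ hfin
  have h1 : Real.exp (-(a * t ^ 2)) * Real.exp (-(B * t ^ 2)) * (c₀ / 2 * ((B - a) * t ^ 2)) *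
      Real.exp (-((∑ j ∈ s, x j) * t ^ 2)) =
      c₀ / 2 * (B - a) * Real.exp (-(t ^ 2)) * t ^ 2 := by
    have h2 : Real.exp (-(t ^ 2)) = Real.exp (-(a * t ^ 2)) * Real.exp (-(B * t ^ 2)) *
        Real.exp (-((∑ j ∈ s, x j) * t ^ 2)) := by
      rw [← Real.exp_add, ← Real.exp_add]
      congr 1
      have : t ^ 2 = (a + B + ∑ j ∈ s, x j) * t ^ 2 := by rw [hsum, one_mul]
      linarith
    rw [h2]
    ring
  rw [h1]
  have h3 : Real.exp (-1) ≤ Real.exp (-(t ^ 2)) := Real.exp_le_exp.2 (by nlinarith)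
  have h4 : 0 ≤ c₀ / 2 * (B - a) := by
    have : 0 < B - a := by linarith
    positivity
  have h5 : c₀ / 2 * (B - a) * Real.exp (-1) ≤ c₀ / 2 * (B - a) * Real.exp (-(t ^ 2)) :=
    mul_le_mul_of_nonneg_left h3 h4
  exact mul_le_mul_of_nonneg_right h5 (by positivity)

end Sys

end Pool.Agent.Helper7.Proj
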