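import Pool.Agent.Helper7.Proj.KeyA

/-!
# Packet A: the key inequality, case analysis
-/

namespace Pool.Agent.Helper7.Proj

open MeasureTheory Set Real

variable {C₀ c₀ δ : ℝ} {Φ G b b' : ℝ → ℝ}

namespace Sys

lemma H_nonneg (hS : Sys C₀ c₀ δ Φ G b b') (hδ : 0 < δ) {k : ℕ} (s : Finset (Fin k))
    (x : Fin k → ℝ) {a B m : ℝ} (haB : a < B) (hm : 0 < m)
    (ham : a ≤ m ^ 2) (hxm : ∀ j ∈ s, 0 ≤ x j ∧ x j ≤ m ^ 2) {t : ℝ} (ht : 0 < t)
    (h : 0 < Φ (m * t)) : 0 ≤ Wf Φ G a B t * ∏ j ∈ s, Φ (√(x j) * t) := by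
  have key : ∀ y, y ≤ m ^ 2 → 0 < Φ (√y * t) := by
    intro y hy
    apply hS.Φ_pos_of_le hδ (by positivity) _ h
    apply mul_le_mul_of_nonneg_right _ ht.le
    exact Real.sqrt_le_iff.2 ⟨hm.le, hy⟩
  apply mul_nonneg
  · unfold Wf
    exact hS.W_nonneg hδ (by positivity)
      (mul_le_mul_of_nonneg_right (Real.sqrt_le_sqrt haB.le) ht.le) (key a ham)
  · exact Finset.prod_nonneg fun j hj => (key _ (hxm j hj).2).le

lemma reduce (hS : Sys C₀ c₀ δ Φ G b b') (hC : 1 ≤ C₀) (hc : 0 < c₀) (hδ : 0 < δ)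
    (hδ1 : C₀ * δ ≤ 1 / 100) {k : ℕ} (s : Finset (Fin k)) (x : Fin k → ℝ) {a B m L : ℝ}
    (ha : 0 < a) (haB : a < B) (hm : 0 < m) (hm1 : m ≤ 1)
    (ham : a ≤ m ^ 2) (hxm : ∀ j ∈ s, 0 ≤ x j ∧ x j ≤ m ^ 2)
    (hsum : a + B + ∑ j ∈ s, x j = 1)
    (hneg : ∀ t, 0 < t → Φ (m * t) ≤ 0 →
      |Wf Φ G a B t * ∏ j ∈ s, Φ (√(x j) * t)| ≤ L / (m * t ^ 2))
    (hL0 : 0 ≤ L) (hL : L / 2 < c₀ / 2 * (B - a) * Real.exp (-1) / 3) :
    0 < ∫ t in Ioi (0 : ℝ), Wf Φ G a B t * ∏ j ∈ s, Φ (√(x j) * t) := by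
  have hC0 : 0 ≤ C₀ := by linarith
  have hT : 1 ≤ 2 / m := by
    rw [le_div_iff₀ hm]
    linarith
  refine final (T := 2 / m) (c := c₀ / 2 * (B - a) * Real.exp (-1)) (K := L / m) hT
    (hS.H_integrable hC hδ hδ1 s x ha (ha.trans haB)) ?_ ?_ ?_ ?_
  · intro t ht
    exact hS.H_lower hC hc hδ hδ1 s x ha haB (fun j hj => (hxm j hj).1) hsum ht
  · intro t ht
    have ht0 : 0 < t := zero_lt_one.trans ht.1
    apply hS.H_nonneg hδ s x haB hm ham hxm ht0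
    apply hS.Φ_pos_le_two hC0 hδ hδ1 (by positivity)
    have := ht.2
    rw [le_div_iff₀ hm] at this
    linarith
  · intro t ht
    have ht0 : 0 < t := lt_trans (by positivity) ht
    have hpos : 0 ≤ L / m / t ^ 2 := by positivity
    rcases le_or_gt (Φ (m * t)) 0 with h | h
    · have h1 := hneg t ht0 h
      have h2 := (abs_le.1 h1).1
      have h3 : L / (m * t ^ 2) = L / m / t ^ 2 := by field_simp
      rw [h3] at h2
      exact h2
    · have := hS.H_nonneg hδ s x haB hm ham hxm ht0 h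
      linarith
  · have h1 : L / m / (2 / m) = L / 2 := by field_simp
    rw [h1]
    exact hL

lemma E0_le {B : ℝ} (hB : 0 < B) :
    Real.exp (1 - 1 / (4 * B)) ≤ 32 * Real.exp 1 * B ^ 2 := by
  have h1 : Real.exp (1 - 1 / (4 * B)) = Real.exp 1 * Real.exp (-(1 / (4 * B))) := by
    rw [← Real.exp_add]; congr 1
  rw [h1, Real.exp_neg]
  have h2 : (1 / (4 * B)) ^ 2 / 2 ≤ Real.exp (1 / (4 * B)) := by
    have h3 := Real.quadratic_le_exp_of_nonneg (x := 1 / (4 * B)) (by positivity)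
    have h4 : 0 ≤ 1 / (4 * B) := by positivity
    linarith
  have h3 : (Real.exp (1 / (4 * B)))⁻¹ ≤ 32 * B ^ 2 := by
    rw [inv_le_comm₀ (Real.exp_pos _) (by positivity)]
    refine le_trans (le_of_eq ?_) h2
    field_simp
    norm_num
  have := mul_le_mul_of_nonneg_left h3 (Real.exp_pos 1).le
  linarith

/-- rest bound, `m = √(x j₀)`. -/
lemma R_le_one (hS : Sys C₀ c₀ δ Φ G b b') (hC : 1 ≤ C₀) (hδ : 0 < δ)
    (hδ1 : C₀ * δ ≤ 1 / 100) {k : ℕ} (s : Finset (Fin k)) (x : Fin k → ℝ) {a B t : ℝ}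
    (ha : 0 < a) (haB : a < B) (hx : ∀ j ∈ s, 0 ≤ x j ∧ x j ≤ 2 * B)
    (hsum : a + B + ∑ j ∈ s, x j = 1) {j₀ : Fin k} (hj₀ : j₀ ∈ s)
    (hmax : ∀ j ∈ s, x j ≤ x j₀) (ht : 0 < t) (hneg : Φ (√(x j₀) * t) ≤ 0) :
    |∏ j ∈ s, Φ (√(x j) * t)| ≤ |Φ (√(x j₀) * t)| * Real.exp (1 - 1 / (4 * B)) := by
  have hB : 0 < B := by linarith
  have hC0 : 0 ≤ C₀ := by linarith
  rw [← Finset.mul_prod_erase s _ hj₀, abs_mul, Finset.abs_prod]
  apply mul_le_mul_of_nonneg_left _ (abs_nonneg _)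
  have hx0 := hx j₀ hj₀
  have h2 := hS.two_lt_of_nonpos hC0 hδ hδ1 (by positivity) hneg
  have h3 := hS.rest_le hC0 hδ hδ1 (s.erase j₀) x (B := B) (m := √(x j₀)) hB ht h2.le
    (by rw [Real.sq_sqrt hx0.1]; exact hx0.2) (fun j hj => by
      rw [Real.sq_sqrt hx0.1]
      exact ⟨(hx j (Finset.mem_of_mem_erase hj)).1, hmax j (Finset.mem_of_mem_erase hj)⟩)
  refine h3.trans (Real.exp_le_exp.2 ?_)
  have h4 : x j₀ + ∑ j ∈ s.erase j₀, x j = ∑ j ∈ s, x j := Finset.add_sum_erase s x hj₀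
  have h5 : 1 - 4 * B ≤ ∑ j ∈ s.erase j₀, x j := by linarith
  rw [neg_div]
  have h6 : (1 - 4 * B) / (4 * B) ≤ (∑ j ∈ s.erase j₀, x j) / (4 * B) :=
    div_le_div_of_nonneg_right h5 (by positivity)
  have h7 : (1 - 4 * B) / (4 * B) = 1 / (4 * B) - 1 := by field_simp
  linarith

/-- rest bound, `m = √a`. -/
lemma R_le_two (hS : Sys C₀ c₀ δ Φ G b b') (hC : 1 ≤ C₀) (hδ : 0 < δ)
    (hδ1 : C₀ * δ ≤ 1 / 100) {k : ℕ} (s : Finset (Fin k)) (x : Fin k → ℝ) {a B t : ℝ}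
    (ha : 0 < a) (haB : a < B) (hx : ∀ j ∈ s, 0 ≤ x j)
    (hsum : a + B + ∑ j ∈ s, x j = 1)
    (hmax : ∀ j ∈ s, x j ≤ a) (ht : 0 < t) (hneg : Φ (√a * t) ≤ 0) :
    |∏ j ∈ s, Φ (√(x j) * t)| ≤ Real.exp (1 - 1 / (4 * B)) := by
  have hB : 0 < B := by linarith
  have hC0 : 0 ≤ C₀ := by linarith
  rw [Finset.abs_prod]
  have h2 := hS.two_lt_of_nonpos hC0 hδ hδ1 (by positivity) hneg
  have h3 := hS.rest_le hC0 hδ hδ1 s x (B := B) (m := √a) hB ht h2.le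
    (by rw [Real.sq_sqrt ha.le]; linarith) (fun j hj => by
      rw [Real.sq_sqrt ha.le]
      exact ⟨hx j hj, hmax j hj⟩)
  refine h3.trans (Real.exp_le_exp.2 ?_)
  have h5 : 1 - 4 * B ≤ ∑ j ∈ s, x j := by linarith
  rw [neg_div]
  have h6 : (1 - 4 * B) / (4 * B) ≤ (∑ j ∈ s, x j) / (4 * B) :=
    div_le_div_of_nonneg_right h5 (by positivity)
  have h7 : (1 - 4 * B) / (4 * B) = 1 / (4 * B) - 1 := by field_simp
  linarith

lemma W_le_A1 (hS : Sys C₀ c₀ δ Φ G b b') (hC : 1 ≤ C₀) (hδ : 0 < δ)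
    (hδ1 : C₀ * δ ≤ 1 / 100) {a B t : ℝ} (hB : 0 < B) (ht : 0 < t) :
    |Wf Φ G a B t| ≤ 6 * C₀ / (√B * t) := by
  have hC0 : 0 ≤ C₀ := by linarith
  have h4 : 4 * C₀ * δ ≤ 1 := by linarith
  have hsB : 0 < √B := Real.sqrt_pos.2 hB
  unfold Wf
  refine (abs_sub _ _).trans ?_
  rw [abs_mul, abs_mul]
  have h1 := hS.abs_Φ_le_one hC0 hδ h4 (t := √a * t) (by positivity)
  have h2 := hS.abs_Φ_le_inv hC0 hδ h4 (mul_pos hsB ht)
  have h3 : |G (√a * t)| ≤ 2 * C₀ := by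
    rw [abs_of_nonneg (hS.G_nonneg (by positivity))]
    exact hS.G_le_const hC0 (by positivity)
  have h4 : |G (√B * t)| ≤ 2 * C₀ / (√B * t) := by
    rw [abs_of_nonneg (hS.G_nonneg (by positivity))]
    exact hS.G_le_inv hC0 (mul_pos hsB ht)
  have h5 := mul_le_mul h1 h4 (abs_nonneg _) zero_le_one
  have h6 := mul_le_mul h3 h2 (abs_nonneg _) (by positivity)
  refine (add_le_add h5 h6).trans (le_of_eq ?_)
  field_simp
  norm_num

lemma W_le_A2 (hS : Sys C₀ c₀ δ Φ G b b') (hC : 1 ≤ C₀) (hδ : 0 < δ)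
    {a B t : ℝ} (ha : 0 < a) (haB : a < B) (ht : 0 < t)
    (hneg : Φ (√a * t) ≤ 0) :
    |Wf Φ G a B t| ≤ 16 * C₀ ^ 2 * δ / (√a * √B * t ^ 2) := by
  have hC0 : 0 ≤ C₀ := by linarith
  have hB : 0 < B := by linarith
  have hsB : 0 < √B := Real.sqrt_pos.2 hB
  have hsa : 0 < √a := Real.sqrt_pos.2 ha
  have hneg' : Φ (√B * t) ≤ 0 := hS.Φ_nonpos_of_le hδ (by positivity)
    (mul_le_mul_of_nonneg_right (Real.sqrt_le_sqrt haB.le) ht.le) hneg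
  unfold Wf
  refine (abs_sub _ _).trans ?_
  rw [abs_mul, abs_mul]
  have h1 := hS.abs_Φ_le_of_nonpos hC0 hδ (mul_pos hsa ht) hneg
  have h2 := hS.abs_Φ_le_of_nonpos hC0 hδ (mul_pos hsB ht) hneg'
  have h3 : |G (√a * t)| ≤ 2 * C₀ / (√a * t) := by
    rw [abs_of_nonneg (hS.G_nonneg (by positivity))]
    exact hS.G_le_inv hC0 (mul_pos hsa ht)
  have h4 : |G (√B * t)| ≤ 2 * C₀ / (√B * t) := by
    rw [abs_of_nonneg (hS.G_nonneg (by positivity))]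
    exact hS.G_le_inv hC0 (mul_pos hsB ht)
  have h5 := mul_le_mul h1 h4 (abs_nonneg _) (by positivity)
  have h6 := mul_le_mul h3 h2 (abs_nonneg _) (by positivity)
  refine (add_le_add h5 h6).trans (le_of_eq ?_)
  field_simp
  norm_num

lemma ratio_le {a B : ℝ} (ha : 0 < a) (haB : a < B) (hB2 : B ≤ 2 * a) {t : ℝ} (ht : 0 < t) :
    (√B * t - √a * t) / (√a * t) ≤ (B - a) / B := by
  have hB : 0 < B := by linarith
  have hsB : 0 < √B := Real.sqrt_pos.2 hB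
  have hsa : 0 < √a := Real.sqrt_pos.2 ha
  have h1 : √a * √a = a := Real.mul_self_sqrt ha.le
  have h2 : √B * √B = B := Real.mul_self_sqrt hB.le
  have h3 : √a < √B := Real.sqrt_lt_sqrt ha.le haB
  have h4 : (√B * t - √a * t) / (√a * t) = (√B - √a) / √a := by
    field_simp
  rw [h4, div_le_div_iff₀ hsa hB]
  have h5 : B - a = (√B - √a) * (√B + √a) := by nlinarith
  rw [h5, mul_assoc]
  apply mul_le_mul_of_nonneg_left _ (by linarith)
  nlinarith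

lemma W_le_B1 (hS : Sys C₀ c₀ δ Φ G b b') (hC : 1 ≤ C₀) (hδ : 0 < δ)
    (hδ1 : C₀ * δ ≤ 1 / 100) {a B t : ℝ} (ha : 0 < a) (haB : a < B) (hB2 : B ≤ 2 * a)
    (ht : 0 < t) (hu : 1 ≤ √a * t) :
    |Wf Φ G a B t| ≤ (B - a) / B * (420 * C₀ ^ 2 / (√a * t)) := by
  have hB : 0 < B := by linarith
  have hsa : 0 < √a := Real.sqrt_pos.2 ha
  have hlt : √a * t < √B * t := mul_lt_mul_of_pos_right (Real.sqrt_lt_sqrt ha.le haB) ht
  have h1 := hS.W_lip hC hδ hu hlt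
  have hδ2 : δ ≤ 1 := by nlinarith
  have hu0 : 0 < √a * t := by positivity
  have h2 : √a * t * Real.exp (-(√a * t) ^ 2 / 2) + δ / (√a * t) ^ 2 ≤ 3 / (√a * t) := by
    have h3 := mul_le_mul_of_nonneg_left (gauss_le_inv_sq hu0) hu0.le
    have h4 : √a * t * (2 / (√a * t) ^ 2) = 2 / (√a * t) := by field_simp
    have h5 : δ / (√a * t) ^ 2 ≤ 1 / (√a * t) := by
      rw [div_le_div_iff₀ (by positivity) hu0]
      nlinarith
    have h6 : 3 / (√a * t) = 2 / (√a * t) + 1 / (√a * t) := by ring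
    linarith
  unfold Wf
  refine h1.trans ?_
  have h3 : 0 ≤ (√B * t - √a * t) / (√a * t) := div_nonneg (by linarith) hu0.le
  have h4 := ratio_le ha haB hB2 ht
  have h5 : 140 * C₀ ^ 2 * (√a * t * Real.exp (-(√a * t) ^ 2 / 2) + δ / (√a * t) ^ 2) ≤
      420 * C₀ ^ 2 / (√a * t) := by
    have := mul_le_mul_of_nonneg_left h2 (by positivity : (0:ℝ) ≤ 140 * C₀ ^ 2)
    refine this.trans (le_of_eq ?_)
    ring
  exact mul_le_mul h4 h5 (by positivity) (div_nonneg (by linarith) hB.le)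

lemma W_le_B2 (hS : Sys C₀ c₀ δ Φ G b b') (hC : 1 ≤ C₀) (hδ : 0 < δ)
    (hδ1 : C₀ * δ ≤ 1 / 100) {a B t r : ℝ} (ha : 0 < a) (haB : a < B) (hB2 : B ≤ 2 * a)
    (ht : 0 < t) (hr : 0 < r) (hr2 : δ = r ^ 2) (hr1 : r ≤ 1) (hneg : Φ (√a * t) ≤ 0) :
    |Wf Φ G a B t| ≤ (B - a) / B * (9100 * C₀ ^ 3 * r / (√a * t) ^ 2) := by
  have hC0 : 0 ≤ C₀ := by linarith
  have hB : 0 < B := by linarith
  have hsa : 0 < √a := Real.sqrt_pos.2 ha
  have hlt : √a * t < √B * t := mul_lt_mul_of_pos_right (Real.sqrt_lt_sqrt ha.le haB) ht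
  have hu0 : 0 < √a * t := by positivity
  have hu2 := hS.two_lt_of_nonpos hC0 hδ hδ1 hu0.le hneg
  have h1 := hS.W_lip hC hδ (by linarith : 1 ≤ √a * t) hlt
  set u := √a * t with hu
  have hgauss := hS.gauss_le_of_Φ_nonpos hC0 hδ hu0 hneg
  have h2 : Real.exp (-u ^ 2 / 4) ≤ 2 * C₀ * r := by
    have h3 : Real.exp (-u ^ 2 / 4) ^ 2 ≤ (2 * C₀ * r) ^ 2 := by
      have h4 : Real.exp (-u ^ 2 / 4) ^ 2 = Real.exp (-u ^ 2 / 2) := by
        rw [← Real.exp_nat_mul]; congr 1; push_cast; ring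
      rw [h4]
      refine hgauss.trans ?_
      have h5 : 4 * C₀ * δ / u ≤ 4 * C₀ * δ := div_le_self (by positivity) (by linarith)
      refine h5.trans ?_
      rw [hr2]
      have : C₀ ≤ C₀ ^ 2 := by nlinarith
      have h6 : 0 ≤ r ^ 2 := by positivity
      nlinarith
    exact (pow_le_pow_iff_left₀ (Real.exp_pos _).le (by positivity) (by norm_num)).1 h3
  have h3 : u * Real.exp (-u ^ 2 / 2) + δ / u ^ 2 ≤ 65 * C₀ * r / u ^ 2 := by
    have h4 : Real.exp (-u ^ 2 / 2) = Real.exp (-u ^ 2 / 4) * Real.exp (-u ^ 2 / 4) := by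
      rw [← Real.exp_add]; congr 1; ring
    have h5 : Real.exp (-u ^ 2 / 2) ≤ 32 / u ^ 4 * (2 * C₀ * r) := by
      rw [h4]
      exact mul_le_mul (gauss4_le hu0) h2 (Real.exp_pos _).le (by positivity)
    have h6 : u * Real.exp (-u ^ 2 / 2) ≤ 64 * C₀ * r / u ^ 2 := by
      refine (mul_le_mul_of_nonneg_left h5 hu0.le).trans ?_
      have h7 : u * (32 / u ^ 4 * (2 * C₀ * r)) = 64 * C₀ * r / u ^ 2 * (1 / u) := by
        field_simp
        norm_num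
      rw [h7]
      have h8 : 1 / u ≤ 1 := by
        rw [div_le_one hu0]; linarith
      have h9 : 0 ≤ 64 * C₀ * r / u ^ 2 := by positivity
      nlinarith
    have h7 : δ / u ^ 2 ≤ C₀ * r / u ^ 2 := by
      apply div_le_div_of_nonneg_right _ (by positivity)
      rw [hr2]
      nlinarith
    have h8 : 65 * C₀ * r / u ^ 2 = 64 * C₀ * r / u ^ 2 + C₀ * r / u ^ 2 := by ring
    linarith
  unfold Wf
  refine h1.trans ?_
  have h4 := ratio_le ha haB hB2 ht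
  have h5 : 140 * C₀ ^ 2 * (u * Real.exp (-u ^ 2 / 2) + δ / u ^ 2) ≤
      9100 * C₀ ^ 3 * r / u ^ 2 := by
    have := mul_le_mul_of_nonneg_left h3 (by positivity : (0:ℝ) ≤ 140 * C₀ ^ 2)
    refine this.trans (le_of_eq ?_)
    ring
  exact mul_le_mul h4 h5 (by positivity) (div_nonneg (by linarith) hB.le)

end Sys

end Pool.Agent.Helper7.Proj
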