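import Pool.Agent.Helper7.Proj.KeyA2

/-!
# Packet A: the key inequality, conclusion
-/

namespace Pool.Agent.Helper7.Proj

open MeasureTheory Set Real

variable {C₀ c₀ δ : ℝ} {Φ G b b' : ℝ → ℝ}

lemma exp_one_sq_le : Real.exp 1 ^ 2 ≤ 7.4 := by
  have h := Real.exp_one_lt_d9
  have h0 := Real.exp_pos 1
  nlinarith

/-- numerical end, case `B ≥ 2a` -/
lemma num_A {C₀ c₀ δ r a B : ℝ} (hC : 1 ≤ C₀) (hc : 0 < c₀) (hr : 0 < r) (hr2 : δ = r ^ 2)
    (hr1 : r ≤ 1) (hrc : r * (10 ^ 7 * C₀ ^ 3) ≤ c₀) (ha : 0 < a) (haB : 2 * a ≤ B)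
    (hB1 : B ≤ 1) :
    24 * C₀ ^ 2 * δ * Real.exp (1 - 1 / (4 * B)) / √B / 2 <
      c₀ / 2 * (B - a) * Real.exp (-1) / 3 := by
  have hB : 0 < B := by linarith
  have hsB : 0 < √B := Real.sqrt_pos.2 hB
  have hsB1 : √B ≤ 1 := Real.sqrt_le_one.2 hB1
  have h2 : √B * √B = B := Real.mul_self_sqrt hB.le
  have he := Real.exp_pos 1
  have hE := Sys.E0_le hB
  -- E0/√B ≤ 32 e B
  have h3 : Real.exp (1 - 1 / (4 * B)) / √B ≤ 32 * Real.exp 1 * B := by
    rw [div_le_iff₀ hsB]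
    refine hE.trans ?_
    have : B ^ 2 ≤ B * √B := by
      have h5 : B ≤ √B := by nlinarith
      nlinarith
    nlinarith
  have h4 : 24 * C₀ ^ 2 * δ * Real.exp (1 - 1 / (4 * B)) / √B / 2 =
      12 * C₀ ^ 2 * δ * (Real.exp (1 - 1 / (4 * B)) / √B) := by ring
  rw [h4]
  have h5 : 12 * C₀ ^ 2 * δ * (Real.exp (1 - 1 / (4 * B)) / √B) ≤
      12 * C₀ ^ 2 * δ * (32 * Real.exp 1 * B) :=
    mul_le_mul_of_nonneg_left h3 (by rw [hr2]; positivity)
  refine h5.trans_lt ?_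
  have h6 : Real.exp (-1) = 1 / Real.exp 1 := by rw [Real.exp_neg, one_div]
  rw [h6]
  have h7 : c₀ / 2 * (B - a) * (1 / Real.exp 1) / 3 = c₀ * (B - a) / (6 * Real.exp 1) := by
    field_simp
    ring
  rw [h7, lt_div_iff₀ (by positivity)]
  have h8 : 12 * C₀ ^ 2 * δ * (32 * Real.exp 1 * B) * (6 * Real.exp 1) =
      2304 * (Real.exp 1 ^ 2) * (C₀ ^ 2 * δ) * B := by ring
  rw [h8]
  have h9 : C₀ ^ 2 * δ ≤ C₀ ^ 3 * r := by
    rw [hr2]
    have h10 : C₀ ^ 2 ≤ C₀ ^ 3 := by nlinarith [sq_nonneg C₀]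
    have h11 : r ^ 2 ≤ r := by nlinarith
    exact mul_le_mul h10 h11 (by positivity) (by positivity)
  have h10 : C₀ ^ 2 * δ * 10 ^ 7 ≤ c₀ := by nlinarith
  have h11 : 0 ≤ C₀ ^ 2 * δ := by rw [hr2]; positivity
  have h12 : 2304 * (Real.exp 1 ^ 2) * (C₀ ^ 2 * δ) ≤ c₀ / 4 := by
    have := exp_one_sq_le
    nlinarith
  have h13 : 2304 * (Real.exp 1 ^ 2) * (C₀ ^ 2 * δ) * B ≤ c₀ / 4 * B :=
    mul_le_mul_of_nonneg_right h12 hB.le
  have h14 : c₀ * B < c₀ * (2 * (B - a)) + c₀ * B := by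
    have : 0 < c₀ * (2 * (B - a)) := by
      have : 0 < B - a := by linarith
      positivity
    linarith
  have h15 : c₀ * (B / 2) ≤ c₀ * (B - a) := mul_le_mul_of_nonneg_left (by linarith) hc.le
  have h16 : 0 < c₀ * B := by positivity
  linarith

/-- numerical end, case `B ≤ 2a` -/
lemma num_B {C₀ c₀ r a B : ℝ} (hC : 1 ≤ C₀) (hc : 0 < c₀) (hr : 0 < r)
    (hrc : r * (10 ^ 7 * C₀ ^ 3) ≤ c₀) (ha : 0 < a) (haB : a < B) (hB2 : B ≤ 2 * a)
    (hB1 : B ≤ 1) :
    (B - a) / B * (9100 * C₀ ^ 3 * r) * Real.exp (1 - 1 / (4 * B)) / √a / 2 <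
      c₀ / 2 * (B - a) * Real.exp (-1) / 3 := by
  have hB : 0 < B := by linarith
  have hsB : 0 < √B := Real.sqrt_pos.2 hB
  have hsa : 0 < √a := Real.sqrt_pos.2 ha
  have hsB1 : √B ≤ 1 := Real.sqrt_le_one.2 hB1
  have h1 : √a * √a = a := Real.mul_self_sqrt ha.le
  have h2 : √B * √B = B := Real.mul_self_sqrt hB.le
  have he := Real.exp_pos 1
  have hE := Sys.E0_le hB
  -- 1/√a ≤ 1.5/√B
  have hab : √B ≤ 1.5 * √a := by
    have : √B ^ 2 ≤ (1.5 * √a) ^ 2 := by nlinarith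
    exact (pow_le_pow_iff_left₀ hsB.le (by positivity) (by norm_num)).1 this
  have h3 : Real.exp (1 - 1 / (4 * B)) / (B * √a) ≤ 48 * Real.exp 1 := by
    rw [div_le_iff₀ (by positivity)]
    refine hE.trans ?_
    have h5 : B ^ 2 ≤ B * (1.5 * √a) := by
      have h6 : B ≤ √B := by nlinarith
      nlinarith
    nlinarith
  have h4 : (B - a) / B * (9100 * C₀ ^ 3 * r) * Real.exp (1 - 1 / (4 * B)) / √a / 2 =
      4550 * (B - a) * (C₀ ^ 3 * r) * (Real.exp (1 - 1 / (4 * B)) / (B * √a)) := by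
    field_simp
    ring
  rw [h4]
  have hBa : 0 < B - a := by linarith
  have h5 : 4550 * (B - a) * (C₀ ^ 3 * r) * (Real.exp (1 - 1 / (4 * B)) / (B * √a)) ≤
      4550 * (B - a) * (C₀ ^ 3 * r) * (48 * Real.exp 1) :=
    mul_le_mul_of_nonneg_left h3 (by positivity)
  refine h5.trans_lt ?_
  have h6 : Real.exp (-1) = 1 / Real.exp 1 := by rw [Real.exp_neg, one_div]
  rw [h6]
  have h7 : c₀ / 2 * (B - a) * (1 / Real.exp 1) / 3 = c₀ * (B - a) / (6 * Real.exp 1) := by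
    field_simp
    ring
  rw [h7, lt_div_iff₀ (by positivity)]
  have h8 : 4550 * (B - a) * (C₀ ^ 3 * r) * (48 * Real.exp 1) * (6 * Real.exp 1) =
      1310400 * (Real.exp 1 ^ 2) * (C₀ ^ 3 * r) * (B - a) := by ring
  rw [h8]
  have h11 : 0 < C₀ ^ 3 * r := by positivity
  have h12 : 1310400 * (Real.exp 1 ^ 2) * (C₀ ^ 3 * r) < c₀ := by
    have := exp_one_sq_le
    nlinarith
  exact mul_lt_mul_of_pos_right h12 hBa

theorem pktA : PktA := by
  intro C₀ c₀ hC hc
  refine ⟨min (1 / (100 * C₀)) ((min 1 (c₀ / (10 ^ 7 * C₀ ^ 3))) ^ 2), ?_, ?_, ?_⟩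
  · positivity
  · refine (min_le_left _ _).trans ?_
    rw [div_le_one (by positivity)]
    linarith
  intro δ Φ G b b' hδ hδ₀ hS a B k s x ha haB hx hsum
  have hC0 : 0 ≤ C₀ := by linarith
  have hδ1 : C₀ * δ ≤ 1 / 100 := by
    have h1 := hδ₀.trans (min_le_left _ _)
    rw [le_div_iff₀ (by positivity)] at h1
    linarith
  set r := √δ with hrdef
  have hr : 0 < r := Real.sqrt_pos.2 hδ
  have hr2 : δ = r ^ 2 := (Real.sq_sqrt hδ.le).symm
  have hr0 : r ≤ min 1 (c₀ / (10 ^ 7 * C₀ ^ 3)) := by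
    have h1 := hδ₀.trans (min_le_right _ _)
    rw [hr2] at h1
    exact (pow_le_pow_iff_left₀ hr.le (by positivity) (by norm_num)).1 h1
  have hr1 : r ≤ 1 := hr0.trans (min_le_left _ _)
  have hrc : r * (10 ^ 7 * C₀ ^ 3) ≤ c₀ := by
    have := hr0.trans (min_le_right _ _)
    rwa [le_div_iff₀ (by positivity)] at this
  have hB : 0 < B := by linarith
  have hsB : 0 < √B := Real.sqrt_pos.2 hB
  have hsa : 0 < √a := Real.sqrt_pos.2 ha
  have hsum0 : 0 ≤ ∑ j ∈ s, x j := Finset.sum_nonneg fun j hj => (hx j hj).1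
  have hB1 : B ≤ 1 := by linarith
  have hE0 : 0 < Real.exp (1 - 1 / (4 * B)) := Real.exp_pos _
  -- dichotomy on the maximum
  by_cases hcase : ∃ j ∈ s, a < x j
  · -- m = √(x j₀)
    obtain ⟨j1, hj1, hj1a⟩ := hcase
    obtain ⟨j₀, hj₀, hmax⟩ := Finset.exists_max_image s x ⟨j1, hj1⟩
    have hax : a < x j₀ := hj1a.trans_le (hmax j1 hj1)
    have hx0 : 0 < x j₀ := ha.trans hax
    have hsx : 0 < √(x j₀) := Real.sqrt_pos.2 hx0
    have hsq : √(x j₀) ^ 2 = x j₀ := Real.sq_sqrt hx0.le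
    have hx1 : x j₀ ≤ 1 := by
      have := Finset.single_le_sum (fun j hj => (hx j hj).1) hj₀
      linarith
    have hm1 : √(x j₀) ≤ 1 := Real.sqrt_le_one.2 hx1
    rcases le_total (2 * a) B with h2a | h2a
    · refine hS.reduce hC hc hδ hδ1 s x (m := √(x j₀))
        (L := 24 * C₀ ^ 2 * δ * Real.exp (1 - 1 / (4 * B)) / √B) ha haB hsx hm1
        (by rw [hsq]; exact hax.le) (fun j hj => ⟨(hx j hj).1, by rw [hsq]; exact hmax j hj⟩)
        hsum ?_ (by positivity) (num_A hC hc hr hr2 hr1 hrc ha h2a hB1)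
      intro t ht hneg
      rw [abs_mul]
      have h1 := hS.W_le_A1 hC hδ hδ1 (a := a) hB ht
      have h2 := hS.R_le_one hC hδ hδ1 s x ha haB hx hsum hj₀ hmax ht hneg
      have h3 := hS.abs_Φ_le_of_nonpos hC0 hδ (by positivity) hneg
      have h4 := h2.trans (mul_le_mul_of_nonneg_right h3 hE0.le)
      refine (mul_le_mul h1 h4 (abs_nonneg _) (by positivity)).trans (le_of_eq ?_)
      field_simp
      norm_num
    · refine hS.reduce hC hc hδ hδ1 s x (m := √(x j₀))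
        (L := (B - a) / B * (9100 * C₀ ^ 3 * r) * Real.exp (1 - 1 / (4 * B)) / √a)
        ha haB hsx hm1
        (by rw [hsq]; exact hax.le) (fun j hj => ⟨(hx j hj).1, by rw [hsq]; exact hmax j hj⟩)
        hsum ?_ (by
          have : 0 ≤ (B - a) / B := div_nonneg (by linarith) hB.le
          positivity) (num_B hC hc hr hrc ha haB h2a hB1)
      intro t ht hneg
      rw [abs_mul]
      have hu2 := hS.two_lt_of_nonpos hC0 hδ hδ1 (by positivity) hneg
      have hle : √(x j₀) ≤ 2 * √a := by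
        have : √(x j₀) ^ 2 ≤ (2 * √a) ^ 2 := by
          rw [hsq, mul_pow, Real.sq_sqrt ha.le]
          have := (hx j₀ hj₀).2
          linarith
        exact (pow_le_pow_iff_left₀ hsx.le (by positivity) (by norm_num)).1 this
      have hu : 1 ≤ √a * t := by nlinarith
      have h1 := hS.W_le_B1 hC hδ hδ1 ha haB h2a ht hu
      have h2 := hS.R_le_one hC hδ hδ1 s x ha haB hx hsum hj₀ hmax ht hneg
      have h3 := hS.abs_Φ_le_of_nonpos hC0 hδ (by positivity) hneg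
      have h4 := h2.trans (mul_le_mul_of_nonneg_right h3 hE0.le)
      have hBa : 0 ≤ (B - a) / B := div_nonneg (by linarith) hB.le
      refine (mul_le_mul h1 h4 (abs_nonneg _) (by positivity)).trans ?_
      have h5 : (B - a) / B * (420 * C₀ ^ 2 / (√a * t)) *
          (4 * C₀ * δ / (√(x j₀) * t) * Real.exp (1 - 1 / (4 * B))) =
          (1680 * δ) * ((B - a) / B * C₀ ^ 3 * Real.exp (1 - 1 / (4 * B)) /
            (√a * (√(x j₀) * t ^ 2))) := by
        field_simp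
        ring
      have h6 : (B - a) / B * (9100 * C₀ ^ 3 * r) * Real.exp (1 - 1 / (4 * B)) / √a /
          (√(x j₀) * t ^ 2) = (9100 * r) * ((B - a) / B * C₀ ^ 3 *
            Real.exp (1 - 1 / (4 * B)) / (√a * (√(x j₀) * t ^ 2))) := by
        field_simp
      rw [h5, h6]
      apply mul_le_mul_of_nonneg_right _ (by positivity)
      rw [hr2]
      nlinarith
  · -- m = √a
    push Not at hcase
    have ha1 : a ≤ 1 := by linarith
    have hm1 : √a ≤ 1 := Real.sqrt_le_one.2 ha1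
    have hsq : √a ^ 2 = a := Real.sq_sqrt ha.le
    rcases le_total (2 * a) B with h2a | h2a
    · refine hS.reduce hC hc hδ hδ1 s x (m := √a)
        (L := 24 * C₀ ^ 2 * δ * Real.exp (1 - 1 / (4 * B)) / √B) ha haB hsa hm1
        (by rw [hsq]) (fun j hj => ⟨(hx j hj).1, by rw [hsq]; exact hcase j hj⟩)
        hsum ?_ (by positivity) (num_A hC hc hr hr2 hr1 hrc ha h2a hB1)
      intro t ht hneg
      rw [abs_mul]
      have h1 := hS.W_le_A2 hC hδ ha haB ht hneg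
      have h2 := hS.R_le_two hC hδ hδ1 s x ha haB (fun j hj => (hx j hj).1) hsum hcase ht hneg
      refine (mul_le_mul h1 h2 (abs_nonneg _) (by positivity)).trans ?_
      have h5 : 16 * C₀ ^ 2 * δ / (√a * √B * t ^ 2) * Real.exp (1 - 1 / (4 * B)) =
          16 * (C₀ ^ 2 * δ * Real.exp (1 - 1 / (4 * B)) / √B / (√a * t ^ 2)) := by
        field_simp
      have h6 : 24 * C₀ ^ 2 * δ * Real.exp (1 - 1 / (4 * B)) / √B / (√a * t ^ 2) =
          24 * (C₀ ^ 2 * δ * Real.exp (1 - 1 / (4 * B)) / √B / (√a * t ^ 2)) := by ring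
      rw [h5, h6]
      exact mul_le_mul_of_nonneg_right (by norm_num) (by positivity)
    · refine hS.reduce hC hc hδ hδ1 s x (m := √a)
        (L := (B - a) / B * (9100 * C₀ ^ 3 * r) * Real.exp (1 - 1 / (4 * B)) / √a)
        ha haB hsa hm1
        (by rw [hsq]) (fun j hj => ⟨(hx j hj).1, by rw [hsq]; exact hcase j hj⟩)
        hsum ?_ (by
          have : 0 ≤ (B - a) / B := div_nonneg (by linarith) hB.le
          positivity) (num_B hC hc hr hrc ha haB h2a hB1)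
      intro t ht hneg
      rw [abs_mul]
      have h1 := hS.W_le_B2 hC hδ hδ1 ha haB h2a ht hr hr2 hr1 hneg
      have h2 := hS.R_le_two hC hδ hδ1 s x ha haB (fun j hj => (hx j hj).1) hsum hcase ht hneg
      have hBa : 0 ≤ (B - a) / B := div_nonneg (by linarith) hB.le
      refine (mul_le_mul h1 h2 (abs_nonneg _) (by positivity)).trans (le_of_eq ?_)
      rw [mul_pow]
      field_simp

end Pool.Agent.Helper7.Proj
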